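import Pool.Agent.T3h73.SL.D.Main

/-! Project SL: the conclusion of the descent. -/

set_option autoImplicit false
set_option linter.all false

open Polynomial IsDedekindDomain NumberField

namespace Pool.Agent.T3h73.SL

open Pool.Agent.Y713.SE Pool.Agent.Y713.SE.Dat

section
variable {ℓ : ℕ} {K : Type} [Field K] [NumberField K] {D : Dat ℓ 2 K}

/-- the torsion class -/
noncomputable def TT {E : Type} [Field E] (D : Dat ℓ 2 E) : ClassGroup D.A := cl (D.PP 0)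

lemma TT_pow {E : Type} [Field E] (D : Dat ℓ 2 E) : TT D ^ ℓ = 1 := D.cl_PP_pow 0

lemma PT_TT {E : Type} [Field E] (D : Dat ℓ 2 E) (m : Fin 2 → ℕ) :
    cl (D.PT m) = TT D ^ (m 0 + (ℓ - 1) * m 1) := by
  have h1 : cl (D.PP 1) = (TT D)⁻¹ := by
    have := D.cl_prod_PP
    rw [Fin.prod_univ_two] at this
    exact eq_inv_of_mul_eq_one_right this
  have h2 : (TT D)⁻¹ = TT D ^ (ℓ - 1) := by
    rw [inv_eq_iff_mul_eq_one, ← pow_succ', Nat.sub_add_cancel D.pos, TT_pow]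
  rw [D.cl_PT, Fin.prod_univ_two, h1, h2, pow_add, pow_mul]
  rfl

lemma TT_ne {E : Type} [Field E] (D : Dat ℓ 2 E) : TT D ≠ 1 := by
  intro h
  have h1 : cl (D.PT ![1, 0]) = cl (D.PT (fun _ => 0)) := by
    rw [PT_TT, PT_TT]
    simp [h]
  have h2 := D.PT_indep h1 0 1
  simp only [Matrix.cons_val_zero, Matrix.cons_val_one, add_zero] at h2
  have h3 := (Nat.modEq_zero_iff_dvd).1 h2
  exact D.hp.one_lt.ne' (Nat.dvd_one.1 h3)

lemma phi_PT {n : ℕ} {E : Type} [Field E] (D : Dat ℓ n E) (m : Fin n → ℕ) :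
    D.phi (cl (D.PT m)) = 1 := by
  rw [phi_apply, sC_cl _ (D.PT_ne _), sI_PT, div_self']

lemma phi_TT {E : Type} [Field E] (D : Dat ℓ 2 E) : D.phi (TT D) = 1 := by
  unfold TT
  rw [phi_apply, sC_cl _ (D.PP_ne _), sI_PP, div_self']

/-- generation -/
theorem mw_gen (hDIM : S_DIM) (h2 : ℓ ≠ 2) (h : Is01 D) (hS : SelMin D)
    (c : ClassGroup (D.base K).A) : ∃ (b : ℕ) (q : ClassGroup (D.base K).A),
      c = TT (D.base K) ^ b * q ^ ℓ := by
  have key : ∀ k : ℕ, ∃ (b : ℕ) (q : ClassGroup (D.base K).A),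
      c = TT (D.base K) ^ b * ((D.base K).phi)^[k + 1] q := by
    intro k
    induction k with
    | zero =>
      obtain ⟨m, c', hc'⟩ := mw_phi hDIM h2 h hS c
      refine ⟨m 0 + (ℓ - 1) * m 1, c', ?_⟩
      rw [hc', PT_TT]; rfl
    | succ k ih =>
      obtain ⟨b, q, hq⟩ := ih
      obtain ⟨m, q', hq'⟩ := mw_phi hDIM h2 h hS q
      refine ⟨b, q', ?_⟩
      rw [hq]
      congr 1
      rw [Function.iterate_succ_apply, Function.iterate_succ_apply (f := (D.base K).phi),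
        Function.iterate_succ_apply (f := (D.base K).phi)]
      congr 1
      rw [hq', map_mul, phi_PT, one_mul]
  obtain ⟨w, hw1, hw2⟩ := (D.base K).phi_pow 1
  obtain ⟨b, q, hq⟩ := key (ℓ - 2)
  have hℓ : ℓ - 2 + 1 = (ℓ - 1) * 1 := by
    have := D.hp.two_le
    omega
  refine ⟨b, w q, ?_⟩
  rw [hq, hℓ, hw2, pow_one, map_pow]

/-- the kernel of `1 - s` over the base field -/
lemma ker_base {c : ClassGroup (D.base K).A} (h : (D.base K).phi c = 1) :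
    ∃ m : Fin 2 → ℕ, c = cl ((D.base K).PT m) := by
  obtain ⟨p, hexp⟩ := ExpChar.exists K
  haveI := hexp
  set L := SeparableClosure K
  haveI : ExpChar L p :=
    expChar_of_injective_algebraMap (algebraMap K L).injective p
  have h1 : (D.base L).phi (D.mC (Algebra.ofId K L) c) = 1 := by
    rw [← mC_phi, h, map_one]
  rw [phi_apply, div_eq_one] at h1
  obtain ⟨m, hm⟩ := (D.base L).phi_ker (p := p) h1.symm
  refine ⟨m, ?_⟩
  have key : D.mC (Algebra.ofId K L) (c / cl ((D.base K).PT m)) = 1 := by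
    rw [_root_.map_div, D.mC_PT, hm, cl_PT, div_self']
  exact div_eq_one.1 (mC_inj D key)

/-- the torsion class is not divisible by `1 - s` -/
lemma not_div (h2 : ℓ ≠ 2) (h : Is01 D) (hδ : ¬ IsP ℓ (δu D)) {c : ClassGroup (D.base K).A}
    {m : Fin 2 → ℕ} (hc : (D.base K).phi c = cl ((D.base K).PT m)) :
    cl ((D.base K).PT m) = 1 := by
  set L := SeparableClosure K
  set cL : ClassGroup (D.base L).A := D.mC (Algebra.ofId K L) c with hcL
  have hinv : ∀ σ : L ≃ₐ[K] L, D.mC (rs K σ) cL = cL := by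
    intro σ
    rw [hcL, mC_mC]
    congr 1
    congr 1
    exact AlgHom.ext fun x => σ.commutes x
  have hcl : cl ((D.base L).PT m) * (D.base L).sC cL = cL := by
    have h1 : (D.base L).phi cL = cl ((D.base L).PT m) := by
      rw [hcL, ← mC_phi, hc, D.mC_PT]
    rw [phi_apply, div_eq_iff_eq_mul] at h1
    exact h1.symm
  have h10 : cl (D.base L |>.PT (fun _ => 0)) = 1 :=
    cl_PT_of_modEq (D.base L) (m := fun _ => 0) (fun _ _ => rfl)
  obtain ⟨x, hx, hrel⟩ := locA' D h2 (F := K) (Ω := L) (χ := fun _ _ => 0) (R := cL)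
    (fun τ => by rw [hinv, h10, mul_one]) (i := 0) (j := 1) (θ := 1)
    one_ne_zero (fun τ => by rw [map_one]) (B1 := (D.base L).PT m) (B2 := ⊤) ((D.base L).PT_ne m)
    (by rw [← Ideal.one_eq_top]; exact one_ne_zero) (fun τ => D.mI_PT _ m)
    (fun τ => Ideal.map_top _) (by
      rw [hcl, ← Ideal.one_eq_top]
      have : cl (1 : Ideal (D.base L).A) = 1 := by
        rwa [show (D.base L).PT (fun _ => 0) = 1 by unfold PT; simp] at h10
      rw [this, one_mul])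
  rw [U_top, lam_one, lam_one, mul_one, mul_one, (h.base L).lam0_PT, (h.base L).lam1_PT,
    one_pow, one_mul] at hrel
  have dδ : algebraMap K L D.δ ≠ 0 := (_root_.map_ne_zero _).2 D.hδ
  rw [base_δ] at hrel
  have e1 := pow_ne_zero (m 0) dδ
  have e2 := pow_ne_zero (m 1) dδ
  have h5 : D.δ ^ m 1 = ((-1) ^ (m 0 + m 1) * x) ^ ℓ * D.δ ^ m 0 := by
    apply (algebraMap K L).injective
    rw [mul_pow, neg_one_pow_pow D.hp h2]
    simp only [map_mul, map_pow, map_neg, map_one]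
    generalize algebraMap K L D.δ = A at *
    generalize (algebraMap K L x) ^ ℓ = W at *
    calc A ^ m 1 = (A ^ m 0)⁻¹ * (A ^ m 0 * A ^ m 1) := by rw [inv_mul_cancel_left₀ e1]
      _ = (W * ((-1) ^ (m 0 + m 1) * (A ^ m 1)⁻¹)) * (A ^ m 0 * A ^ m 1) := by rw [hrel]
      _ = (-1) ^ (m 0 + m 1) * W * A ^ m 0 * ((A ^ m 1)⁻¹ * A ^ m 1) := by ring
      _ = _ := by rw [inv_mul_cancel₀ e2, mul_one]
  -- `ℓ` divides `m 0 - m 1`
  have h6 : (ℓ : ℤ) ∣ (m 1 : ℤ) - m 0 := by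
    by_contra hnd
    apply hδ
    have hy : (-1) ^ (m 0 + m 1) * x ≠ 0 := mul_ne_zero (pow_ne_zero _ (by simp)) hx
    have h7 : δu D ^ ((m 1 : ℤ) - m 0) = (Units.mk0 _ hy) ^ ℓ := by
      rw [zpow_sub, zpow_natCast, zpow_natCast, mul_inv_eq_iff_eq_mul]
      apply Units.ext
      simpa [δu] using h5
    have hco : IsCoprime ((m 1 : ℤ) - m 0) (ℓ : ℤ) := by
      rw [isCoprime_comm, Prime.coprime_iff_not_dvd (Nat.prime_iff_prime_int.1 D.hp)]
      exact hnd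
    obtain ⟨a, b, hab⟩ := hco
    refine ⟨(Units.mk0 _ hy) ^ a * (δu D) ^ b, ?_⟩
    calc δu D = δu D ^ (a * ((m 1 : ℤ) - m 0) + b * ℓ) := by rw [hab, zpow_one]
      _ = ((Units.mk0 _ hy) ^ a * (δu D) ^ b) ^ ℓ := by
        rw [zpow_add, mul_comm a, zpow_mul, h7, mul_pow, ← zpow_natCast (Units.mk0 _ hy) ℓ,
          ← zpow_mul, ← zpow_natCast ((Units.mk0 _ hy) ^ a), ← zpow_mul, mul_comm (ℓ : ℤ) a,
          ← zpow_natCast (δu D ^ b), ← zpow_mul]
  refine (D.base K).cl_PT_of_modEq ?_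
  have h01 : m 0 ≡ m 1 [MOD ℓ] := (Nat.modEq_iff_dvd).2 h6
  intro i j
  fin_cases i <;> fin_cases j
  · exact Nat.ModEq.refl _
  · exact h01
  · exact h01.symm
  · exact Nat.ModEq.refl _

/-- saturation -/
theorem mw_sat (h2 : ℓ ≠ 2) (h : Is01 D) (hδ : ¬ IsP ℓ (δu D)) {c : ClassGroup (D.base K).A}
    {b : ℕ} (hc : c ^ ℓ = TT (D.base K) ^ b) : ∃ a : ℕ, c = TT (D.base K) ^ a := by
  obtain ⟨w, hw1, hw2⟩ := (D.base K).phi_pow 1
  have h3 : ((D.base K).phi)^[(ℓ - 1) * 1 + 1] c = 1 := by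
    rw [Function.iterate_succ_apply', hw2, pow_one, hc, map_pow, map_pow]
    have h4 : (D.base K).phi (w (TT (D.base K))) = 1 := by
      have hcomm : ∀ x, (D.base K).phi ((D.base K).sC x) = (D.base K).sC ((D.base K).phi x) := by
        intro x
        rw [phi_apply, phi_apply, _root_.map_div]
      rw [hw1 _ hcomm, phi_TT, map_one]
    rw [h4, one_pow]
  have key : ∀ k : ℕ, ∀ x : ClassGroup (D.base K).A, ((D.base K).phi)^[k] x = 1 →
      ∃ m : Fin 2 → ℕ, x = cl ((D.base K).PT m) := by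
    intro k
    induction k with
    | zero =>
      intro x hx
      refine ⟨fun _ => 0, ?_⟩
      rw [cl_PT_of_modEq (D.base K) (m := fun _ => 0) (fun _ _ => rfl)]
      exact hx
    | succ k ih =>
      intro x hx
      rw [Function.iterate_succ_apply] at hx
      obtain ⟨m, hm⟩ := ih _ hx
      exact ker_base (hm.trans (not_div h2 h hδ hm))
  obtain ⟨m, hm⟩ := key _ c h3
  exact ⟨_, hm.trans (PT_TT _ m)⟩

end

/-- the conclusion for the curve `y ^ ℓ = δ x (x + 1)` -/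
def Good2 (ℓ : ℕ) (K : Type) [Field K] [NumberField K] (δ : K) : Prop :=
  Pool.Agent.Y713.Jac.ShaPrimaryTrivial ℓ (C δ * (X * (X + 1)) : K[X]) (𝓞 K) ∧
  ∃ T : Pool.Agent.Y713.Jac.J ℓ (C δ * (X * (X + 1)) : K[X]) K, T ^ ℓ = 1 ∧ T ≠ 1 ∧
    (∀ P : Pool.Agent.Y713.Jac.J ℓ (C δ * (X * (X + 1)) : K[X]) K, ∃ (b : ℕ)
      (Q : Pool.Agent.Y713.Jac.J ℓ (C δ * (X * (X + 1)) : K[X]) K), P = T ^ b * Q ^ ℓ) ∧
    ∀ (P : Pool.Agent.Y713.Jac.J ℓ (C δ * (X * (X + 1)) : K[X]) K) (b : ℕ), P ^ ℓ = T ^ b →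
      ∃ a : ℕ, P = T ^ a

/-- DESC -/
theorem t_DESC (hDIM : S_DIM) (ℓ : ℕ) (hℓ : ℓ.Prime) (h2 : ℓ ≠ 2) (K : Type) [Field K]
    [NumberField K] (ζ : K) (hζ : IsPrimitiveRoot ζ ℓ) (δ : Kˣ)
    (hS : ∀ x : Kˣ, (∀ v : Pl K, loc v x ∈ LC ℓ v (loc v δ)) → ∃ (m : ℤ) (z : Kˣ), x = δ ^ m * z ^ ℓ)
    (hδ : ¬ IsP ℓ δ) : Good2 ℓ K (δ : K) := by
  have hne : (ℓ : K) ≠ 0 := by exact_mod_cast hℓ.ne_zero
  set D := Dt hℓ h2 hne hζ (δ := (δ : K)) δ.ne_zero with hD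
  have h := Dt01 hℓ h2 hne hζ (δ := (δ : K)) δ.ne_zero
  have hf : D.f = C (δ : K) * (X * (X + 1)) := Dt_f hℓ h2 hne hζ δ.ne_zero
  have hu : δu D = δ := Units.ext rfl
  have hSel : SelMin D := by
    intro x hx
    rw [hu] at hx ⊢
    exact hS x hx
  have hδ' : ¬ IsP ℓ (δu D) := by rw [hu]; exact hδ
  have h1 := sha_main hDIM h2 h hSel
  have key : ∃ T : Pool.Agent.Y713.Jac.J ℓ D.f K, T ^ ℓ = 1 ∧ T ≠ 1 ∧
      (∀ P : Pool.Agent.Y713.Jac.J ℓ D.f K, ∃ (b : ℕ)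
        (Q : Pool.Agent.Y713.Jac.J ℓ D.f K), P = T ^ b * Q ^ ℓ) ∧
      ∀ (P : Pool.Agent.Y713.Jac.J ℓ D.f K) (b : ℕ), P ^ ℓ = T ^ b → ∃ a : ℕ, P = T ^ a := by
    refine ⟨D.Te K (TT (D.base K)), ?_, ?_, fun P => ?_, fun P b hP => ?_⟩
    · rw [← map_pow, TT_pow, map_one]
    · rw [Ne, EmbeddingLike.map_eq_one_iff]
      exact TT_ne _
    · obtain ⟨b, q, hq⟩ := mw_gen hDIM h2 h hSel ((D.Te K).symm P)
      refine ⟨b, D.Te K q, ?_⟩
      rw [← map_pow, ← map_pow, ← map_mul, ← hq, MulEquiv.apply_symm_apply]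
    · obtain ⟨a, ha⟩ := mw_sat h2 h hδ' (c := (D.Te K).symm P) (b := b) (by
        apply (D.Te K).injective
        rw [map_pow, MulEquiv.apply_symm_apply, hP, map_pow])
      exact ⟨a, by rw [← map_pow, ← ha, MulEquiv.apply_symm_apply]⟩
  rw [hf] at h1 key
  exact ⟨h1, key⟩

end Pool.Agent.T3h73.SL
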