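import Pool.Agent.T3h73.SL.D.Adj

/-! Project SL: splitting off the branch points from an ideal. -/

set_option autoImplicit false
set_option linter.all false

open Polynomial IsDedekindDomain

namespace Pool.Agent.T3h73.SL

open Pool.Agent.Y713.SE Pool.Agent.Y713.SE.Dat

section
variable {ℓ n : ℕ} {E : Type} [Field E] (D : Dat ℓ n E)

lemma ne_of_mul_left {I J : Ideal D.A} (h : I * J ≠ ⊥) : I ≠ ⊥ := by
  rintro rfl
  exact h (by rw [Ideal.bot_mul])

lemma ne_of_mul_right {I J : Ideal D.A} (h : I * J ≠ ⊥) : J ≠ ⊥ := by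
  rintro rfl
  exact h (by rw [Ideal.mul_bot])

/-- a prime over a root of the norm -/
lemma le_of_NI {I P : Ideal D.A} (hI : I ≠ ⊥) (hP : P.IsPrime)
    (h : algebraMap E[X] D.A (D.U I) ∈ P) : ∃ j, D.sI j I ≤ P := by
  have h1 : D.NI I ≤ P := by
    rw [D.NI_eq hI, Ideal.span_singleton_le_iff_mem]
    exact h
  unfold NI at h1
  obtain ⟨j, _, hj⟩ := (Ideal.IsPrime.prod_le hP).1 h1
  exact ⟨j, hj⟩

lemma le_PP {I : Ideal D.A} (hI : I ≠ ⊥) {i : Fin n} (h : (D.U I).eval (D.e i) = 0) :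
    I ≤ D.PP i := by
  obtain ⟨j, hj⟩ := le_of_NI D hI (D.PP_max i).isPrime (by rw [mem_PP, ev_alg, h])
  intro a ha
  have h1 := hj (D.mem_sI.2 ⟨a, ha, rfl⟩)
  rw [mem_PP, ev_s] at h1
  exact D.mem_PP.2 h1

lemma PT_single_add (i : Fin n) (m : Fin n → ℕ) :
    D.PT (fun k => m k + if k = i then 1 else 0) = D.PP i * D.PT m := by
  classical
  unfold PT
  have h1 : ∀ k, D.PP k ^ (m k + if k = i then 1 else 0) =
      (if k = i then D.PP k else 1) * D.PP k ^ m k := by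
    intro k
    split_ifs
    · rw [pow_succ']
    · rw [add_zero, one_mul]
  rw [Finset.prod_congr rfl fun k _ => h1 k, Finset.prod_mul_distrib, Finset.prod_ite_eq']
  simp

theorem exists_fac : ∀ (N : ℕ) (I : Ideal D.A), I ≠ ⊥ → (D.U I).natDegree ≤ N →
    ∃ (m : Fin n → ℕ) (J : Ideal D.A), J ≠ ⊥ ∧ I = D.PT m * J ∧ ∀ i, (D.U J).eval (D.e i) ≠ 0 := by
  intro N
  induction N with
  | zero =>
    intro I hI hd
    refine ⟨fun _ => 0, I, hI, ?_, fun i hi => ?_⟩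
    · have : D.PT (fun _ => 0) = 1 := by unfold PT; simp
      rw [this, one_mul]
    · have h1 : D.U I = 1 := eq_one_of_monic_natDegree_zero (D.U_monic I) (Nat.le_zero.1 hd)
      rw [h1, eval_one] at hi
      exact one_ne_zero hi
  | succ N ih =>
    intro I hI hd
    by_cases h : ∀ i, (D.U I).eval (D.e i) ≠ 0
    · refine ⟨fun _ => 0, I, hI, ?_, h⟩
      have : D.PT (fun _ => 0) = 1 := by unfold PT; simp
      rw [this, one_mul]
    · push Not at h
      obtain ⟨i, hi⟩ := h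
      obtain ⟨J, hJ⟩ := Ideal.dvd_iff_le.2 (le_PP D hI hi)
      have hJ0 : J ≠ ⊥ := ne_of_mul_right D (hJ ▸ hI)
      have hdeg : (D.U I).natDegree = 1 + (D.U J).natDegree := by
        rw [hJ, D.deg_mul (D.PP_ne i) hJ0, D.U_PP, natDegree_X_sub_C]
      obtain ⟨m, J', hJ'0, hJ', hJ'2⟩ := ih J hJ0 (by omega)
      refine ⟨fun k => m k + if k = i then 1 else 0, J', hJ'0, ?_, hJ'2⟩
      rw [PT_single_add, hJ, hJ', mul_assoc]

end

section
variable {ℓ n : ℕ} {K : Type} [Field K] (D : Dat ℓ n K)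
variable {F Ω : Type} [Field F] [Algebra K F] [Field Ω] [Algebra K Ω] [Algebra F Ω]
  [IsScalarTower K F Ω]

/-- the cofactor of an invariant ideal is invariant -/
lemma inv_cofactor {B J : Ideal (D.base Ω).A} {m : Fin n → ℕ} (hB : B = (D.base Ω).PT m * J)
    (hinv : ∀ τ : Ω ≃ₐ[F] Ω, D.mI (rs K τ) B = B) (τ : Ω ≃ₐ[F] Ω) : D.mI (rs K τ) J = J := by
  have h1 := hinv τ
  rw [hB, mI_mul, mI_PT] at h1
  exact mul_left_cancel₀ ((D.base Ω).PT_ne m) h1

/-- the norm of an invariant ideal is defined over the base -/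
lemma exists_U0 [IsGalois F Ω] {J : Ideal (D.base Ω).A} (hJ : J ≠ ⊥)
    (hinv : ∀ τ : Ω ≃ₐ[F] Ω, D.mI (rs K τ) J = J) :
    ∃ U₀ : F[X], U₀.Monic ∧ U₀.map (algebraMap F Ω) = (D.base Ω).U J := by
  have h1 : ∀ k, ∃ c : F, algebraMap F Ω c = ((D.base Ω).U J).coeff k := by
    intro k
    refine exists_F (F := F) fun τ => ?_
    have h2 := D.U_mI (rs K τ) hJ
    rw [hinv] at h2
    conv_rhs => rw [h2, coeff_map]
    rfl
  have h2 : (D.base Ω).U J ∈ Polynomial.lifts (algebraMap F Ω) := by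
    rw [Polynomial.lifts_iff_coeff_lifts]
    intro k
    obtain ⟨c, hc⟩ := h1 k
    exact ⟨c, hc⟩
  obtain ⟨U₀, hU, -, hm⟩ := Polynomial.lifts_and_natDegree_eq_and_monic h2 ((D.base Ω).U_monic J)
  exact ⟨U₀, hm, hU⟩

end

end Pool.Agent.T3h73.SL
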