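import Pool.Agent.T3h73.SL.D.N2

/-! Project SL: the change of the Kummer generator under the adjustment of a cocycle. -/

set_option autoImplicit false
set_option linter.all false

open Polynomial IsDedekindDomain

namespace Pool.Agent.T3h73.SL

open Pool.Agent.Y713.SE Pool.Agent.Y713.SE.Dat

variable {ℓ : ℕ} {K : Type} [Field K]

section
variable {n : ℕ} {E : Type} [Field E] (D : Dat ℓ n E)

lemma cl_PT_pow (m : Fin n → ℕ) : cl (D.PT m) ^ ℓ = 1 := by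
  rw [D.cl_PT, ← Finset.prod_pow]
  refine Finset.prod_eq_one fun k _ => ?_
  rw [← pow_mul, mul_comm, pow_mul, D.cl_PP_pow, one_pow]

lemma cl_PT_add (m m' : Fin n → ℕ) : cl (D.PT (m + m')) = cl (D.PT m) * cl (D.PT m') := by
  rw [D.cl_PT, D.cl_PT, D.cl_PT, ← Finset.prod_mul_distrib]
  exact Finset.prod_congr rfl fun k _ => by rw [Pi.add_apply, pow_add]

lemma cl_PT_sub (m m' : Fin n → ℕ) :
    cl (D.PT (fun i => m i + (ℓ - 1) * m' i)) = cl (D.PT m) / cl (D.PT m') := by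
  rw [eq_div_iff_mul_eq', mul_comm]
  have h1 : cl (D.PT (fun i => (ℓ - 1) * m' i)) = cl (D.PT m') ^ (ℓ - 1) := by
    rw [D.cl_PT, D.cl_PT, ← Finset.prod_pow]
    exact Finset.prod_congr rfl fun k _ => by rw [← pow_mul, mul_comm (ℓ - 1)]
  have h2 : (fun i => m i + (ℓ - 1) * m' i) = m + fun i => (ℓ - 1) * m' i := rfl
  rw [h2, cl_PT_add, h1, mul_left_comm, ← pow_succ', Nat.sub_add_cancel D.pos, cl_PT_pow, mul_one]

end

variable {D : Dat ℓ 2 K} {L : Type} [Field L] [Algebra K L] [IsGalois K L]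

lemma zeta_tw {n : ℕ} {E : Type} [Field E] (D : Dat ℓ n E) (k : ℕ) :
    D.ζ ^ k * D.ζ ^ ((ℓ - 1) * k) = 1 := by
  rw [← pow_add]
  have : k + (ℓ - 1) * k = ℓ * k := by
    have := D.pos
    obtain ⟨j, rfl⟩ : ∃ j, ℓ = j + 1 := ⟨ℓ - 1, (Nat.sub_add_cancel this).symm⟩
    rw [Nat.add_sub_cancel]; ring
  rw [this, pow_mul, D.hζ.pow_eq_one, one_pow]

theorem adj_rel (h2 : ℓ ≠ 2) (h : Is01 D) {m : Fin 2 → ℕ} {χ χ' : (L ≃ₐ[K] L) → Fin 2 → ℕ}
    {Q : ClassGroup (D.base L).A} (hQ : cl ((D.base L).PT m) * (D.base L).sC Q = Q)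
    (hχ' : ∀ σ, cl ((D.base L).PT (χ' σ)) = cl ((D.base L).PT (χ σ)) / (D.mC (au σ) Q / Q))
    (kd : D.KD χ) (kd' : D.KD χ') :
    ∃ x : K, x ≠ 0 ∧ kd.d 0 1 * D.δ ^ m 1 = kd'.d 0 1 * D.δ ^ m 0 * x ^ ℓ := by
  set ψ : (L ≃ₐ[K] L) → Fin 2 → ℕ := fun σ i => χ σ i + (ℓ - 1) * χ' σ i with hψ
  have hR : ∀ τ : L ≃ₐ[K] L, D.mC (rs K τ) Q = Q * cl ((D.base L).PT (ψ τ)) := by
    intro τ
    have e1 : cl ((D.base L).PT (ψ τ)) = cl ((D.base L).PT (χ τ)) / cl ((D.base L).PT (χ' τ)) :=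
      cl_PT_sub (D.base L) _ _
    have e2 : D.mC (rs K τ) Q / Q = cl ((D.base L).PT (χ τ)) / cl ((D.base L).PT (χ' τ)) := by
      rw [hχ' τ, div_div_cancel]; rfl
    rw [e1, ← e2, mul_comm, div_mul_cancel]
  have hθ0 : kd.θ 0 1 / kd'.θ 0 1 ≠ 0 := div_ne_zero (kd.h0 0 1) (kd'.h0 0 1)
  have hθ : ∀ τ : L ≃ₐ[K] L, (D.base L).ζ ^ ψ τ 1 * τ (kd.θ 0 1 / kd'.θ 0 1) =
      (D.base L).ζ ^ ψ τ 0 * (kd.θ 0 1 / kd'.θ 0 1) := by
    intro τ
    have a1 := kd.hθ τ 0 1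
    have a2 := kd'.hθ τ 0 1
    have z0 := zeta_tw (D.base L) (χ' τ 0)
    have z1 := zeta_tw (D.base L) (χ' τ 1)
    rw [hψ]
    simp only
    rw [pow_add, pow_add, map_div₀, mul_div_assoc', mul_div_assoc']
    have t0 : τ (kd'.θ 0 1) ≠ 0 := (_root_.map_ne_zero _).2 (kd'.h0 0 1)
    rw [div_eq_div_iff t0 (kd'.h0 0 1)]
    have hz : (D.base L).ζ ^ χ' τ 0 * (D.base L).ζ ^ χ' τ 1 ≠ 0 :=
      mul_ne_zero (pow_ne_zero _ (D.base L).ζ_ne) (pow_ne_zero _ (D.base L).ζ_ne)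
    apply mul_left_cancel₀ hz
    generalize (D.base L).ζ ^ χ τ 0 = p0 at *
    generalize (D.base L).ζ ^ χ τ 1 = p1 at *
    generalize (D.base L).ζ ^ χ' τ 0 = q0 at *
    generalize (D.base L).ζ ^ χ' τ 1 = q1 at *
    generalize (D.base L).ζ ^ ((ℓ - 1) * χ' τ 0) = r0 at *
    generalize (D.base L).ζ ^ ((ℓ - 1) * χ' τ 1) = r1 at *
    generalize τ (kd.θ 0 1) = T at *
    generalize τ (kd'.θ 0 1) = T' at *
    generalize kd.θ 0 1 = t at *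
    generalize kd'.θ 0 1 = t' at *
    -- a1 : p1 * T = p0 * t, a2 : q1 * T' = q0 * t', z0 : q0 r0 = 1, z1 : q1 r1 = 1
    calc q0 * q1 * (p1 * r1 * T * t') = (q1 * r1) * (p1 * T) * (q0 * t') := by ring
      _ = 1 * (p0 * t) * (q1 * T') := by rw [z1, a1, a2]
      _ = (q0 * r0) * (p0 * t) * (q1 * T') := by rw [z0]
      _ = _ := by ring
  obtain ⟨x, hx, hrel⟩ := locA' D h2 (F := K) (Ω := L) (χ := ψ) (R := Q) hR (i := 0) (j := 1)
    hθ0 hθ (B1 := (D.base L).PT m) (B2 := ⊤) ((D.base L).PT_ne m)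
    (by rw [← Ideal.one_eq_top]; exact one_ne_zero) (fun τ => D.mI_PT _ m)
    (fun τ => Ideal.map_top _) (by
      rw [hQ, ← Ideal.one_eq_top]
      have : cl (1 : Ideal (D.base L).A) = 1 := by
        have := cl_PT_of_modEq (D.base L) (m := fun _ => 0) (fun _ _ => rfl)
        rwa [show (D.base L).PT (fun _ => 0) = 1 by unfold PT; simp] at this
      rw [this, one_mul])
  rw [U_top, lam_one, lam_one, mul_one, mul_one, (h.base L).lam0_PT, (h.base L).lam1_PT,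
    div_pow, kd.hd, kd'.hd] at hrel
  refine ⟨(-1) ^ (m 0 + m 1) * x, mul_ne_zero (pow_ne_zero _ (by simp)) hx, ?_⟩
  apply (algebraMap K L).injective
  rw [mul_pow, neg_one_pow_pow D.hp h2]
  have d0 : algebraMap K L (kd'.d 0 1) ≠ 0 := by
    rw [← kd'.hd]; exact pow_ne_zero _ (kd'.h0 0 1)
  have dδ : algebraMap K L D.δ ≠ 0 := (_root_.map_ne_zero _).2 D.hδ
  simp only [map_mul, map_pow, map_neg, map_one]
  rw [base_δ] at hrel
  have e1 := pow_ne_zero (m 0) dδ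
  have e2 := pow_ne_zero (m 1) dδ
  field_simp at hrel
  linear_combination hrel

end Pool.Agent.T3h73.SL
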