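import Pool.Agent.T3h73.SL.D.Lcd
import Pool.Agent.Y713.SE.StmT

/-! Project SL: the descent. -/

set_option autoImplicit false
set_option linter.all false

open Polynomial IsDedekindDomain NumberField

namespace Pool.Agent.T3h73.SL

open Pool.Agent.Y713.SE Pool.Agent.Y713.SE.Dat
open Pool.Agent.Y713 (Jac.Gal)

section
variable {ℓ : ℕ} {K : Type} [Field K] [NumberField K] {D : Dat ℓ 2 K}

/-- the hypothesis on the Selmer group -/
def SelMin (D : Dat ℓ 2 K) : Prop :=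
  ∀ x : Kˣ, (∀ v : Pl K, loc v x ∈ LC ℓ v (loc v (δu D))) → ∃ (m : ℤ) (z : Kˣ), x = δu D ^ m * z ^ ℓ

/-- a natural number exponent -/
lemma nat_exp (D : Dat ℓ 2 K) {x : Kˣ} (h : ∃ (m : ℤ) (z : Kˣ), x = δu D ^ m * z ^ ℓ) :
    ∃ (m : ℕ) (z : Kˣ), x = δu D ^ m * z ^ ℓ := by
  obtain ⟨m, z, rfl⟩ := h
  have hℓ : (0 : ℤ) < ℓ := by exact_mod_cast D.pos
  refine ⟨(m % ℓ).toNat, (δu D) ^ (m / ℓ) * z, ?_⟩
  rw [mul_pow, ← mul_assoc]
  congr 1
  have h1 : ((m % (ℓ : ℤ)).toNat : ℤ) = m % ℓ := Int.toNat_of_nonneg (Int.emod_nonneg _ hℓ.ne')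
  rw [← zpow_natCast (δu D) ((m % (ℓ : ℤ)).toNat), ← zpow_natCast (δu D ^ (m / (ℓ : ℤ))) ℓ,
    ← zpow_mul, ← zpow_add, h1, mul_comm (m / (ℓ : ℤ)), Int.emod_add_mul_ediv]

/-- the main result on locally trivial cocycles with values in the kernel of `1 - s` -/
theorem coc_main (hDIM : S_DIM) (h2 : ℓ ≠ 2) (h : Is01 D) (hS : SelMin D) {p : ℕ}
    [ExpChar (SeparableClosure K) p]
    {χ : (SeparableClosure K ≃ₐ[K] SeparableClosure K) → Fin 2 → ℕ}
    (hc : D.Coc (fun σ => cl ((D.base (SeparableClosure K)).PT (χ σ))))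
    (ht : ∀ v : Pl K, D.Triv (v.adicCompletion K) (SeparableClosure (v.adicCompletion K))
      (fun σ => cl ((D.base (SeparableClosure K)).PT (χ σ)))) :
    ∃ (m : Fin 2 → ℕ) (Q : ClassGroup (D.base (SeparableClosure K)).A),
      cl ((D.base (SeparableClosure K)).PT m) * (D.base (SeparableClosure K)).sC Q = Q ∧
      ∀ σ, cl ((D.base (SeparableClosure K)).PT (χ σ)) = D.mC (au σ) Q / Q := by
  obtain ⟨kd⟩ := D.exists_KD hc
  obtain ⟨a, z, haz⟩ := nat_exp D (hS (du kd) fun v => loc_cond hDIM h2 h v hc (ht v) kd)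
  obtain ⟨Q, χ', hQ, hχ', hc'⟩ := D.exists_adj (p := p) ![a, 0] hc
  obtain ⟨kd'⟩ := D.exists_KD hc'
  obtain ⟨y, hy, hrel⟩ := adj_rel h2 h hQ hχ' kd kd'
  have hz : kd.d 0 1 = D.δ ^ a * (z : K) ^ ℓ := by
    have := congrArg Units.val haz
    simpa [du, δu] using this
  have hδ : D.δ ^ a ≠ 0 := pow_ne_zero _ D.hδ
  have hd' : kd'.d 0 1 = ((z : K) / y) ^ ℓ := by
    simp only [Matrix.cons_val_zero, Matrix.cons_val_one, pow_zero, mul_one] at hrel
    rw [hz] at hrel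
    have h5 : (z : K) ^ ℓ = kd'.d 0 1 * y ^ ℓ := by
      apply mul_left_cancel₀ hδ
      rw [hrel]; ring
    rw [div_pow, h5, mul_div_cancel_right₀ _ (pow_ne_zero _ hy)]
  refine ⟨![a, 0], Q, hQ, fun σ => ?_⟩
  have h01 := D.modEq_of_pow kd' hd' σ
  have hall : ∀ i j, χ' σ i ≡ χ' σ j [MOD ℓ] := by
    intro i j
    fin_cases i <;> fin_cases j
    · exact Nat.ModEq.refl _
    · exact h01
    · exact h01.symm
    · exact Nat.ModEq.refl _
  have h3 := hχ' σ
  rw [(D.base _).cl_PT_of_modEq hall] at h3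
  exact (div_eq_one.1 h3.symm)

theorem sha_main (hDIM : S_DIM) (h2 : ℓ ≠ 2) (h : Is01 D) (hS : SelMin D) :
    Pool.Agent.Y713.Jac.ShaPrimaryTrivial ℓ D.f (𝓞 K) := by
  obtain ⟨p, hexp⟩ := ExpChar.exists K
  haveI := hexp
  haveI : ExpChar (SeparableClosure K) p :=
    expChar_of_injective_algebraMap (algebraMap K (SeparableClosure K)).injective p
  apply D.sha_primary (R := 𝓞 K)
  intro χ hc ht
  obtain ⟨m, Q, -, hQ⟩ := coc_main hDIM h2 h hS (p := p) hc ht
  exact ⟨Q, hQ⟩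

/-- the quotient of the Mordell-Weil group by the image of `1 - s` -/
theorem mw_phi (hDIM : S_DIM) (h2 : ℓ ≠ 2) (h : Is01 D) (hS : SelMin D)
    (c : ClassGroup (D.base K).A) : ∃ (m : Fin 2 → ℕ) (c' : ClassGroup (D.base K).A),
      c = cl ((D.base K).PT m) * (D.base K).phi c' := by
  obtain ⟨p, hexp⟩ := ExpChar.exists K
  haveI := hexp
  set L := SeparableClosure K
  haveI : ExpChar L p :=
    expChar_of_injective_algebraMap (algebraMap K L).injective p
  set cL : ClassGroup (D.base L).A := D.mC (Algebra.ofId K L) c with hcL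
  have hinv : ∀ σ : L ≃ₐ[K] L, D.mC (au σ) cL = cL := by
    intro σ
    rw [hcL, mC_mC]
    congr 1
    congr 1
    exact AlgHom.ext fun x => σ.commutes x
  obtain ⟨R, hR⟩ := (D.base L).phi_surj (p := p) cL
  have hφR : (D.base L).phi R = cL := by
    rw [phi_apply, div_eq_iff_eq_mul]
    exact hR.symm
  have h3 : ∀ σ : L ≃ₐ[K] L, ∃ m : Fin 2 → ℕ, D.mC (au σ) R / R = cl ((D.base L).PT m) := by
    intro σ
    have h4 : (D.base L).phi (D.mC (au σ) R / R) = 1 := by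
      rw [_root_.map_div, ← mC_phi, hφR, hinv, div_self']
    rw [phi_apply, div_eq_one] at h4
    obtain ⟨m, hm⟩ := (D.base L).phi_ker (p := p) h4.symm
    exact ⟨m, by rw [hm, cl_PT]⟩
  choose χ hχ using h3
  have hfun : (fun σ => cl ((D.base L).PT (χ σ))) = fun σ : L ≃ₐ[K] L => D.mC (au σ) R / R :=
    funext fun σ => (hχ σ).symm
  have hc : D.Coc (fun σ => cl ((D.base L).PT (χ σ))) := by
    rw [hfun]
    refine ⟨?_, fun σ τ => ?_⟩
    · exact (D.mC_locConst R).comp (fun x => x / R)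
    · show D.mC (au (σ * τ)) R / R = D.mC (au σ) R / R * D.mC (au σ) (D.mC (au τ) R / R)
      rw [mC_mul_au, _root_.map_div, div_mul_div_comm, mul_comm R, mul_div_mul_left_eq_div]
  have ht : ∀ v : Pl K, D.Triv (v.adicCompletion K) (SeparableClosure (v.adicCompletion K))
      (fun σ => cl ((D.base L).PT (χ σ))) := by
    intro v
    rw [hfun]
    let ι : L →ₐ[K] SeparableClosure (v.adicCompletion K) := by
      haveI : CharZero (v.adicCompletion K) :=
        charZero_of_injective_algebraMap (algebraMap K (v.adicCompletion K)).injective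
      exact IsSepClosed.lift
    refine ⟨ι, D.mC ι R, fun τ σ hτσ => ?_⟩
    have h1 : (rs K τ).comp ι = ι.comp (au σ) := AlgHom.ext hτσ
    rw [_root_.map_div, mC_mC, mC_mC, h1]
  obtain ⟨m, Q, hQ, hQ2⟩ := coc_main hDIM h2 h hS (p := p) hc ht
  have hφQ : (D.base L).phi Q = cl ((D.base L).PT m) := by
    rw [phi_apply, div_eq_iff_eq_mul]
    exact hQ.symm
  obtain ⟨c', hc'⟩ := class_descent D (c := R / Q) (fun σ => by
    have h5 : D.mC (au σ) R / R = D.mC (au σ) Q / Q := by rw [hχ, hQ2]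
    rw [_root_.map_div, div_eq_div_iff_mul_eq_mul]
    rw [div_eq_div_iff_mul_eq_mul] at h5
    rw [h5, mul_comm])
  refine ⟨m, c', ?_⟩
  have key : D.mC (Algebra.ofId K L) (c / (cl ((D.base K).PT m) * (D.base K).phi c')) = 1 := by
    rw [_root_.map_div, map_mul, D.mC_PT, mC_phi, hc', ← hcL, _root_.map_div, hφR, hφQ,
      mul_div_cancel, div_self']
  exact div_eq_one.1 (mC_inj D key)

end

end Pool.Agent.T3h73.SL
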