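import Pool.Agent.T3h73.SL.D.Dsc

/-! Project SL: injectivity of the base change of ideal classes. -/

set_option autoImplicit false
set_option linter.all false

open Polynomial IsDedekindDomain

namespace Pool.Agent.T3h73.SL

open Pool.Agent.Y713.SE Pool.Agent.Y713.SE.Dat

section
variable {K L : Type} [Field K] [Field L] [Algebra K L] (lam : L →ₗ[K] K)

/-- a linear form applied to the coefficients -/
noncomputable def pl (g : L[X]) : K[X] := ∑ k ∈ g.support, monomial k (lam (g.coeff k))

lemma coeff_pl (g : L[X]) (k : ℕ) : (pl lam g).coeff k = lam (g.coeff k) := by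
  unfold pl
  rw [finset_sum_coeff]
  simp only [coeff_monomial]
  rw [Finset.sum_ite_eq']
  split_ifs with h
  · rfl
  · rw [notMem_support_iff.1 h, map_zero]

lemma pl_add (g h : L[X]) : pl lam (g + h) = pl lam g + pl lam h := by
  ext k; simp [coeff_pl]

lemma pl_zero : pl lam 0 = 0 := by ext k; simp [coeff_pl]

lemma pl_mul (h : K[X]) (g : L[X]) : pl lam (h.map (algebraMap K L) * g) = h * pl lam g := by
  ext k
  rw [coeff_pl, coeff_mul, coeff_mul, map_sum]
  refine Finset.sum_congr rfl fun x _ => ?_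
  rw [coeff_map, ← Algebra.smul_def, map_smul, coeff_pl, smul_eq_mul]

end

section
variable {ℓ n : ℕ} {K : Type} [Field K] (D : Dat ℓ n K) {L : Type} [Field L] [Algebra K L]
variable (lam : L →ₗ[K] K)

/-- the retraction -/
noncomputable def La (a : (D.base L).A) : (D.base K).A :=
  ∑ j : Fin ℓ, pl lam ((D.base L).c j a) • (D.base K).y ^ (j : ℕ)

lemma La_add (a b : (D.base L).A) : La D lam (a + b) = La D lam a + La D lam b := by
  unfold La
  rw [← Finset.sum_add_distrib]
  exact Finset.sum_congr rfl fun j _ => by rw [map_add, pl_add, add_smul]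

lemma La_zero : La D lam 0 = 0 := by
  unfold La
  exact Finset.sum_eq_zero fun j _ => by rw [map_zero, pl_zero, zero_smul]

lemma La_sum {ι : Type} (s : Finset ι) (F : ι → (D.base L).A) :
    La D lam (∑ i ∈ s, F i) = ∑ i ∈ s, La D lam (F i) := by
  classical
  induction s using Finset.induction_on with
  | empty => rw [Finset.sum_empty, Finset.sum_empty, La_zero]
  | insert a s ha ih => rw [Finset.sum_insert ha, Finset.sum_insert ha, La_add, ih]

lemma f_map_ofId : (D.base K).f.map (algebraMap K L) = (D.base L).f := D.f_map (Algebra.ofId K L)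

lemma La_smul_y (g : L[X]) (m : ℕ) :
    La D lam (g • (D.base L).y ^ m) = pl lam g • (D.base K).y ^ m := by
  have h1 : g • (D.base L).y ^ m =
      ((D.base L).f ^ (m / ℓ) * g) • (D.base L).y ^ ((⟨m % ℓ, Nat.mod_lt _ D.pos⟩ : Fin ℓ) : ℕ) := by
    conv_lhs => rw [← Nat.div_add_mod m ℓ, pow_add, pow_mul, (D.base L).y_pow]
    rw [Algebra.smul_def, Algebra.smul_def, map_mul, map_pow]
    ring
  have h2 : pl lam g • (D.base K).y ^ m =
      ((D.base K).f ^ (m / ℓ) * pl lam g) •
        (D.base K).y ^ ((⟨m % ℓ, Nat.mod_lt _ D.pos⟩ : Fin ℓ) : ℕ) := by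
    conv_lhs => rw [← Nat.div_add_mod m ℓ, pow_add, pow_mul, (D.base K).y_pow]
    rw [Algebra.smul_def, Algebra.smul_def, map_mul, map_pow]
    ring
  rw [h1, h2]
  unfold La
  have h3 : ∀ j : Fin ℓ, (D.base L).c j ((D.base L).y ^
      ((⟨m % ℓ, Nat.mod_lt _ D.pos⟩ : Fin ℓ) : ℕ)) =
      if (⟨m % ℓ, Nat.mod_lt _ D.pos⟩ : Fin ℓ) = j then 1 else 0 := fun j => cf_pow D.pos _ _
  rw [Finset.sum_eq_single (⟨m % ℓ, Nat.mod_lt _ D.pos⟩ : Fin ℓ)]
  · rw [map_smul, h3, if_pos rfl, smul_eq_mul, mul_one, ← f_map_ofId D (L := L),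
      ← Polynomial.map_pow, pl_mul]
  · intro j _ hj
    rw [map_smul, h3, if_neg (Ne.symm hj), smul_zero, pl_zero, zero_smul]
  · intro h; exact absurd (Finset.mem_univ _) h

lemma La_mul (b : (D.base K).A) (z : (D.base L).A) :
    La D lam (D.mp (Algebra.ofId K L) b * z) = b * La D lam z := by
  conv_lhs => rw [← (D.base K).sum_c b, ← (D.base L).sum_c z]
  rw [map_sum, Finset.sum_mul_sum, La_sum]
  conv_rhs => rw [← (D.base K).sum_c b]
  unfold La
  rw [Finset.sum_mul_sum]
  refine Finset.sum_congr rfl fun i _ => ?_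
  have := La_sum D lam Finset.univ (fun j : Fin ℓ =>
    D.mp (Algebra.ofId K L) ((D.base K).c i b • (D.base K).y ^ (i : ℕ)) *
      ((D.base L).c j z • (D.base L).y ^ (j : ℕ)))
  unfold La at this
  rw [this]
  refine Finset.sum_congr rfl fun j _ => ?_
  have h1 : D.mp (Algebra.ofId K L) ((D.base K).c i b • (D.base K).y ^ (i : ℕ)) *
      ((D.base L).c j z • (D.base L).y ^ (j : ℕ)) =
      (((D.base K).c i b).map (algebraMap K L) * (D.base L).c j z) •
        (D.base L).y ^ ((i : ℕ) + j) := by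
    rw [Algebra.smul_def, map_mul, D.mp_alg, map_pow, D.mp_y, Algebra.smul_def, Algebra.smul_def,
      map_mul, pow_add]
    have : ((D.base K).c i b).map ((Algebra.ofId K L : K →ₐ[K] L) : K →+* L) =
      ((D.base K).c i b).map (algebraMap K L) := rfl
    rw [this]
    ring
  rw [h1]
  have h2 := La_smul_y D lam (((D.base K).c i b).map (algebraMap K L) * (D.base L).c j z)
    ((i : ℕ) + j)
  unfold La at h2
  rw [h2, pl_mul, Algebra.smul_def, Algebra.smul_def, Algebra.smul_def, map_mul, pow_add]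
  ring

lemma La_one (h1 : lam 1 = 1) (b : (D.base K).A) : La D lam (D.mp (Algebra.ofId K L) b) = b := by
  have h2 := La_mul D lam b 1
  rw [mul_one] at h2
  rw [h2]
  have h3 := La_smul_y D lam (1 : L[X]) 0
  rw [pow_zero, pow_zero, one_smul] at h3
  rw [h3]
  have : pl lam (1 : L[X]) = 1 := by
    ext k
    rw [coeff_pl, coeff_one, coeff_one]
    split_ifs
    · exact h1
    · exact map_zero _
  rw [this, one_smul, mul_one]

/-- an ideal is the contraction of its extension -/
lemma comap_mI (I : Ideal (D.base K).A) {a : (D.base K).A}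
    (ha : D.mp (Algebra.ofId K L) a ∈ D.mI (Algebra.ofId K L) I) : a ∈ I := by
  obtain ⟨lam, hlam⟩ : ∃ lam : L →ₗ[K] K, lam 1 = 1 := by
    obtain ⟨g, hg⟩ := (LinearMap.toSpanSingleton K L (1 : L)).exists_leftInverse_of_injective
      (by
        rw [LinearMap.ker_eq_bot]
        intro x y hxy
        simp only [LinearMap.toSpanSingleton_apply] at hxy
        have := smul_left_injective K (one_ne_zero (α := L)) hxy
        exact this)
    refine ⟨g, ?_⟩
    have := LinearMap.congr_fun hg 1
    simpa using this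
  rw [← La_one D lam hlam a]
  have key : ∀ z ∈ D.mI (Algebra.ofId K L) I, La D lam z ∈ I := by
    intro z hz
    unfold mI at hz
    rw [Ideal.map] at hz
    refine Submodule.span_induction (p := fun z _ => ∀ w : (D.base L).A, La D lam (w * z) ∈ I)
      ?_ ?_ ?_ ?_ hz |> fun h => by simpa using h 1
    · rintro _ ⟨b, hb, rfl⟩ w
      rw [mul_comm, La_mul]
      exact I.mul_mem_right _ hb
    · intro w; rw [mul_zero, La_zero]; exact I.zero_mem
    · intro x y _ _ hx hy w
      rw [mul_add, La_add]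
      exact I.add_mem (hx w) (hy w)
    · intro r x _ hx w
      rw [smul_eq_mul, ← mul_assoc]
      exact hx _
  exact key _ ha

lemma mI_inj_base {I J : Ideal (D.base K).A}
    (h : D.mI (Algebra.ofId K L) I = D.mI (Algebra.ofId K L) J) : I = J := by
  apply le_antisymm
  · intro a ha
    apply comap_mI D (L := L)
    rw [← h]
    exact D.mem_mI _ ha
  · intro a ha
    apply comap_mI D (L := L)
    rw [h]
    exact D.mem_mI _ ha

variable [IsGalois K L]

/-- injectivity on classes -/
theorem mC_inj {c : ClassGroup (D.base K).A} (h : D.mC (Algebra.ofId K L) c = 1) : c = 1 := by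
  obtain ⟨I, hI, rfl⟩ := exists_cl c
  rw [D.mC_cl _ hI] at h
  have hI' := D.mI_ne (Algebra.ofId K L) hI
  obtain ⟨a, ha0, ha⟩ : ∃ a : (D.base L).A, a ≠ 0 ∧ D.mI (Algebra.ofId K L) I = Ideal.span {a} := by
    have h1 : cl (D.mI (Algebra.ofId K L) I) = cl (⊤ : Ideal (D.base L).A) := by
      rw [h]
      have := cl_PT_of_modEq (D.base L) (m := fun _ => 0) (fun _ _ => rfl)
      rw [show (D.base L).PT (fun _ => 0) = ⊤ by unfold PT; simp [Ideal.one_eq_top]] at this
      exact this.symm
    obtain ⟨p, q, hp, hq, hpq⟩ := (cl_eq_iff hI'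
      (show (⊤ : Ideal (D.base L).A) ≠ ⊥ by rw [← Ideal.one_eq_top]; exact one_ne_zero)).1 h1
    rw [Ideal.mul_top] at hpq
    have h2 : q ∈ Ideal.span {p} := by
      have : Ideal.span {q} ≤ Ideal.span {p} := by
        rw [← hpq]
        exact Ideal.mul_le_left (I := Ideal.span {p}) (J := D.mI (Algebra.ofId K L) I)
      exact this (Ideal.mem_span_singleton_self q)
    obtain ⟨a, rfl⟩ := Ideal.mem_span_singleton.1 h2
    refine ⟨a, right_ne_zero_of_mul hq, ?_⟩
    rw [← Ideal.span_singleton_mul_span_singleton] at hpq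
    exact mul_left_cancel₀ ((D.base L).span_ne hp) hpq
  -- normalise
  obtain ⟨j, k, hjk⟩ : ∃ j k, co D j k a ≠ 0 := by
    by_contra hcon
    push Not at hcon
    apply ha0
    refine co_ext D fun j k => ?_
    have h0 : co D j k (0 : (D.base L).A) = 0 := by unfold co; rw [map_zero, coeff_zero]
    rw [h0, hcon]
  obtain ⟨b, hb⟩ : ∃ b, b = algebraMap L[X] (D.base L).A (C (co D j k a)⁻¹) * a := ⟨_, rfl⟩
  have hb1 : co D j k b = 1 := by rw [hb, co_smul, inv_mul_cancel₀ hjk]
  have hu : IsUnit (algebraMap L[X] (D.base L).A (C (co D j k a)⁻¹)) :=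
    (isUnit_C.2 (isUnit_iff_ne_zero.2 (inv_ne_zero hjk))).map _
  have hIb : D.mI (Algebra.ofId K L) I = Ideal.span {b} := by
    rw [ha, hb, Ideal.span_singleton_eq_span_singleton]
    exact (associated_isUnit_mul_right_iff hu).2 (Associated.refl _)
  have hb0 : b ≠ 0 := by
    rintro rfl
    have h0 : co D j k (0 : (D.base L).A) = 0 := by unfold co; rw [map_zero, coeff_zero]
    rw [h0] at hb1
    exact zero_ne_one hb1
  have hfix : ∀ τ : L ≃ₐ[K] L, D.mp (au τ) b = b := by
    intro τ
    have h1 : D.mI (au τ) (D.mI (Algebra.ofId K L) I) = D.mI (Algebra.ofId K L) I := by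
      rw [mI_mI]
      congr 1
      exact AlgHom.ext fun x => τ.commutes x
    rw [hIb, mI_span, Ideal.span_singleton_eq_span_singleton] at h1
    obtain ⟨u, hu⟩ := h1
    obtain ⟨κ, hκ, huκ⟩ := (D.base L).unit_const u.isUnit
    rw [huκ, mul_comm] at hu
    have h2 := congrArg (co D j k) hu
    rw [co_smul, co_mp, hb1] at h2
    have h3 : κ = 1 := by
      have : (au τ) (1 : L) = 1 := map_one _
      rw [this, mul_one] at h2
      exact h2
    rw [h3, C_1, map_one, one_mul] at hu
    exact hu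
  obtain ⟨b₀, hb₀⟩ := exists_mp D hfix
  have hI2 : I = Ideal.span {b₀} := by
    apply mI_inj_base D (L := L)
    rw [hIb, mI_span, hb₀]
  have hb₀0 : b₀ ≠ 0 := by
    rintro rfl
    rw [map_zero] at hb₀
    exact hb0 hb₀.symm
  rw [hI2, cl_span hb₀0]

/-- descent of invariant classes -/
theorem class_descent {c : ClassGroup (D.base L).A} (h : ∀ τ : L ≃ₐ[K] L, D.mC (au τ) c = c) :
    ∃ c₀ : ClassGroup (D.base K).A, D.mC (Algebra.ofId K L) c₀ = c := by
  obtain ⟨I, hI, hIc, hinv⟩ := D.exists_can c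
  have h1 : ∀ τ : L ≃ₐ[K] L, D.mI (au τ) I = I := fun τ => hinv τ (h τ)
  have h2 := ideal_descent D h1
  have h3 : I.comap (D.mp (Algebra.ofId K L)) ≠ ⊥ := by
    intro h0
    rw [h0] at h2
    apply hI
    rw [← h2]
    exact Ideal.map_bot
  refine ⟨cl (I.comap (D.mp (Algebra.ofId K L))), ?_⟩
  rw [D.mC_cl _ h3, h2, hIc]

end

end Pool.Agent.T3h73.SL
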