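import Pool.Agent.Y713.SE.Glo3

/-! Project SL: the exact form of the local theorem on the Kummer generators. -/

set_option autoImplicit false
set_option linter.all false

open Polynomial

namespace Pool.Agent.T3h73.SL

open Pool.Agent.Y713.SE Pool.Agent.Y713.SE.Dat

/-- the product of the powers of a root of unity of odd order -/
lemma prod_zeta {F : Type} [Field F] {ℓ : ℕ} (hℓ : ℓ.Prime) (h2 : ℓ ≠ 2) {ζ : F} (hζ : ζ ^ ℓ = 1)
    (m : ℕ) : ∏ j ∈ Finset.range ℓ, ζ ^ (j * m) = 1 := by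
  rw [Finset.prod_pow_eq_pow_sum, ← Finset.sum_mul, Finset.sum_range_id]
  obtain ⟨k, hk⟩ := hℓ.odd_of_ne_two h2
  have h1 : ℓ * (ℓ - 1) / 2 = ℓ * k := by
    have : ℓ * (ℓ - 1) = (ℓ * k) * 2 := by rw [hk, Nat.add_sub_cancel]; ring
    rw [this, Nat.mul_div_cancel _ (by norm_num)]
  rw [h1, mul_assoc, pow_mul, hζ, one_pow]

section

variable {ℓ n : ℕ} {K : Type} [Field K] (D : Dat ℓ n K)
variable {F Ω : Type} [Field F] [Algebra K F] [Field Ω] [Algebra K Ω] [Algebra F Ω]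
  [IsScalarTower K F Ω]

lemma lam_span {E : Type} [Field E] (D : Dat ℓ n E) (h2 : ℓ ≠ 2) {a : D.A} (ha : a ≠ 0) :
    ∃ t : E, t ≠ 0 ∧ ∀ i : Fin n, D.lam i (D.U (Ideal.span {a})) = t * D.lead i a ^ ℓ := by
  have hN := D.Nm_ne ha
  have hc : (D.Nm a).leadingCoeff⁻¹ ≠ 0 := inv_ne_zero (leadingCoeff_ne_zero.2 hN)
  refine ⟨(D.Nm a).leadingCoeff⁻¹, hc, fun i => ?_⟩
  rw [D.U_span ha, D.lam_mul i hN (C_ne_zero.2 hc), D.lam_C i hc, D.lead_Nm i ha,
    prod_zeta D.hp h2 D.hζ.pow_eq_one]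
  ring

lemma lam_rel {E : Type} [Field E] (D : Dat ℓ n E) (h2 : ℓ ≠ 2) {a b : D.A} (ha : a ≠ 0)
    (hb : b ≠ 0) {I J : Ideal D.A} (hI : I ≠ ⊥) (hJ : J ≠ ⊥)
    (h : Ideal.span {a} * I = Ideal.span {b} * J) :
    ∃ t : E, t ≠ 0 ∧ ∀ i : Fin n, D.lead i a ^ ℓ * D.lam i (D.U I) =
      t * (D.lead i b ^ ℓ * D.lam i (D.U J)) := by
  obtain ⟨t, ht, h1⟩ := lam_span D h2 ha
  obtain ⟨u, hu, h2⟩ := lam_span D h2 hb
  refine ⟨u / t, div_ne_zero hu ht, fun i => ?_⟩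
  have h3 := congrArg (fun I => D.lam i (D.U I)) h
  rw [D.U_mul (D.span_ne ha) hI, D.U_mul (D.span_ne hb) hJ, D.lam_mul i (D.U_ne _) (D.U_ne _),
    D.lam_mul i (D.U_ne _) (D.U_ne _), h1, h2] at h3
  rw [div_mul_eq_mul_div, eq_div_iff ht]
  linear_combination h3

/-- the exact form of Theorem A -/
theorem locA' (hℓ2 : ℓ ≠ 2) [IsGalois F Ω] {χ : (Ω ≃ₐ[F] Ω) → Fin n → ℕ} {R : ClassGroup (D.base Ω).A}
    (hR : ∀ τ, D.mC (rs K τ) R = R * cl ((D.base Ω).PT (χ τ)))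
    {i j : Fin n} {θ : Ω} (hθ0 : θ ≠ 0)
    (hθ : ∀ τ : Ω ≃ₐ[F] Ω, (D.base Ω).ζ ^ χ τ j * τ θ = (D.base Ω).ζ ^ χ τ i * θ)
    {B1 B2 : Ideal (D.base Ω).A} (hB1 : B1 ≠ ⊥) (hB2 : B2 ≠ ⊥)
    (hi1 : ∀ τ : Ω ≃ₐ[F] Ω, D.mI (rs K τ) B1 = B1) (hi2 : ∀ τ : Ω ≃ₐ[F] Ω, D.mI (rs K τ) B2 = B2)
    (hcl : cl B1 * (D.base Ω).sC R = cl B2 * R) :
    ∃ x : F, x ≠ 0 ∧ θ ^ ℓ * ((D.base Ω).lam i ((D.base Ω).U B1) * (D.base Ω).lam j ((D.base Ω).U B2)) =
      algebraMap F Ω x ^ ℓ * ((D.base Ω).lam j ((D.base Ω).U B1) *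
        (D.base Ω).lam i ((D.base Ω).U B2)) := by
  obtain ⟨I, hI, rfl⟩ := exists_cl R
  rw [(D.base Ω).sC_cl hI, ← cl_mul hB1 ((D.base Ω).sI_ne hI), ← cl_mul hB2 hI] at hcl
  obtain ⟨b, a, hb, ha, hab⟩ := (cl_eq_iff ((D.base Ω).mul_ne hB1 ((D.base Ω).sI_ne hI))
    ((D.base Ω).mul_ne hB2 hI)).1 hcl
  -- the ratio of leading coefficients
  have key : ∀ τ : Ω ≃ₐ[F] Ω, ∃ κ : Ω, κ ≠ 0 ∧ ∀ k : Fin n,
      τ ((D.base Ω).lead k a) * (D.base Ω).lead k b * (κ * (D.base Ω).ζ ^ χ τ k) =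
        τ ((D.base Ω).lead k b) * (D.base Ω).lead k a := by
    intro τ
    have h1 := hR τ
    rw [D.mC_cl _ hI, ← cl_mul hI ((D.base Ω).PT_ne _)] at h1
    obtain ⟨p, q, hp, hq, hpq⟩ := (cl_eq_iff (D.mI_ne _ hI)
      ((D.base Ω).mul_ne hI ((D.base Ω).PT_ne _))).1 h1
    have h2 := congrArg (D.mI (rs K τ)) hab
    rw [mI_mul, mI_mul, mI_mul, mI_mul, mI_span, mI_span, hi1, hi2, mI_sI] at h2
    have h3 := congrArg ((D.base Ω).sI 1) hpq
    rw [sI_mul, sI_mul, sI_mul, sI_span, sI_span, sI_PT] at h3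
    have hta := D.mp_ne (rs K τ) ha
    have htb := D.mp_ne (rs K τ) hb
    have hsp : (D.base Ω).s 1 p ≠ 0 := (map_ne_zero_iff _ ((D.base Ω).s 1).injective).2 hp
    have hsq : (D.base Ω).s 1 q ≠ 0 := (map_ne_zero_iff _ ((D.base Ω).s 1).injective).2 hq
    -- the key ideal identity
    have h4 : Ideal.span {D.mp (rs K τ) a * (D.base Ω).s 1 p * q * b} =
        Ideal.span {D.mp (rs K τ) b * p * (D.base Ω).s 1 q * a} := by
      have hne : (B1 * (D.base Ω).sI 1 I) * (D.base Ω).PT (χ τ) ≠ ⊥ :=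
        (D.base Ω).mul_ne ((D.base Ω).mul_ne hB1 ((D.base Ω).sI_ne hI)) ((D.base Ω).PT_ne _)
      apply mul_right_cancel₀ hne
      simp only [← Ideal.span_singleton_mul_span_singleton]
      generalize (D.base Ω).sI 1 I = sI at *
      generalize D.mI (rs K τ) I = tI at *
      generalize (D.base Ω).PT (χ τ) = T at *
      generalize (D.base Ω).sI 1 tI = stI at *
      generalize Ideal.span {D.mp (rs K τ) a} = ta at *
      generalize Ideal.span {D.mp (rs K τ) b} = tb at *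
      generalize Ideal.span {(D.base Ω).s 1 p} = sp at *
      generalize Ideal.span {(D.base Ω).s 1 q} = sq at *
      generalize Ideal.span {a} = a' at *
      generalize Ideal.span {b} = b' at *
      generalize Ideal.span {p} = p' at *
      generalize Ideal.span {q} = q' at *
      calc ta * sp * q' * b' * (B1 * sI * T) = ta * sp * q' * (b' * (B1 * sI)) * T := by ring
        _ = ta * sp * q' * (a' * (B2 * I)) * T := by rw [hab]
        _ = ta * sp * a' * B2 * (q' * (I * T)) := by ring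
        _ = ta * sp * a' * B2 * (p' * tI) := by rw [hpq]
        _ = sp * a' * p' * (ta * (B2 * tI)) := by ring
        _ = sp * a' * p' * (tb * (B1 * stI)) := by rw [h2]
        _ = a' * p' * tb * B1 * (sp * stI) := by ring
        _ = a' * p' * tb * B1 * (sq * (sI * T)) := by rw [h3]
        _ = _ := by ring
    rw [Ideal.span_singleton_eq_span_singleton] at h4
    obtain ⟨u, hu⟩ := h4
    obtain ⟨κ, hκ, huκ⟩ := (D.base Ω).unit_const u.isUnit
    rw [huκ] at hu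
    have hκA := (D.base Ω).alg_ne (C_ne_zero.2 hκ)
    refine ⟨κ, hκ, fun k => ?_⟩
    have h5 := congrArg ((D.base Ω).lead k) hu
    rw [(D.base Ω).lead_mul k (mul_ne_zero (mul_ne_zero (mul_ne_zero hta hsp) hq) hb) hκA,
      (D.base Ω).lead_mul k (mul_ne_zero (mul_ne_zero hta hsp) hq) hb,
      (D.base Ω).lead_mul k (mul_ne_zero hta hsp) hq, (D.base Ω).lead_mul k hta hsp,
      (D.base Ω).lead_mul k (mul_ne_zero (mul_ne_zero htb hp) hsq) ha,
      (D.base Ω).lead_mul k (mul_ne_zero htb hp) hsq, (D.base Ω).lead_mul k htb hp,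
      (D.base Ω).lead_C k hκ, (D.base Ω).lead_s k hp, (D.base Ω).lead_s k hq,
      D.lead_mp _ k ha, D.lead_mp _ k hb, rs_apply, rs_apply, one_mul, one_mul] at h5
    have h6 : (D.base Ω).ord k p = (D.base Ω).ord k q + χ τ k := by
      have h7 := congrArg ((D.base Ω).oI k) hpq
      rw [(D.base Ω).oI_mul k ((D.base Ω).span_ne hp) (D.mI_ne _ hI),
        (D.base Ω).oI_mul k ((D.base Ω).span_ne hq) ((D.base Ω).mul_ne hI ((D.base Ω).PT_ne _)),
        (D.base Ω).oI_mul k hI ((D.base Ω).PT_ne _), (D.base Ω).oI_span k hp,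
        (D.base Ω).oI_span k hq, D.oI_mI k _ hI, (D.base Ω).oI_PT] at h7
      omega
    have h8 : (D.base Ω).ζ ^ (D.base Ω).ord k q * (D.base Ω).lead k p * (D.base Ω).lead k q ≠ 0 :=
      mul_ne_zero (mul_ne_zero (pow_ne_zero _ (D.base Ω).ζ_ne) ((D.base Ω).lead_ne hp))
        ((D.base Ω).lead_ne hq)
    apply mul_left_cancel₀ h8
    rw [h6, pow_add] at h5
    linear_combination h5
  -- the element
  set z : Ω := θ * ((D.base Ω).lead i a * (D.base Ω).lead j b) /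
    ((D.base Ω).lead j a * (D.base Ω).lead i b) with hz
  have hai := (D.base Ω).lead_ne (i := i) ha
  have haj := (D.base Ω).lead_ne (i := j) ha
  have hbi := (D.base Ω).lead_ne (i := i) hb
  have hbj := (D.base Ω).lead_ne (i := j) hb
  have hz0 : z ≠ 0 := div_ne_zero (mul_ne_zero hθ0 (mul_ne_zero hai hbj)) (mul_ne_zero haj hbi)
  have hzfix : ∀ τ : Ω ≃ₐ[F] Ω, τ z = z := by
    intro τ
    obtain ⟨κ, hκ, hk⟩ := key τ
    have hi := hk i
    have hj := hk j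
    have hθ' := hθ τ
    have hζi : (D.base Ω).ζ ^ χ τ i ≠ 0 := pow_ne_zero _ (D.base Ω).ζ_ne
    have hζj : (D.base Ω).ζ ^ χ τ j ≠ 0 := pow_ne_zero _ (D.base Ω).ζ_ne
    have tai : τ ((D.base Ω).lead i a) ≠ 0 := (_root_.map_ne_zero _).2 hai
    have taj : τ ((D.base Ω).lead j a) ≠ 0 := (_root_.map_ne_zero _).2 haj
    have tbi : τ ((D.base Ω).lead i b) ≠ 0 := (_root_.map_ne_zero _).2 hbi
    have tbj : τ ((D.base Ω).lead j b) ≠ 0 := (_root_.map_ne_zero _).2 hbj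
    rw [hz, map_div₀, map_mul, map_mul, map_mul, div_eq_div_iff (mul_ne_zero taj tbi)
      (mul_ne_zero haj hbi)]
    generalize τ ((D.base Ω).lead i a) = Ai at *
    generalize τ ((D.base Ω).lead j a) = Aj at *
    generalize τ ((D.base Ω).lead i b) = Bi at *
    generalize τ ((D.base Ω).lead j b) = Bj at *
    generalize (D.base Ω).lead i a = ai at *
    generalize (D.base Ω).lead j a = aj at *
    generalize (D.base Ω).lead i b = bi at *
    generalize (D.base Ω).lead j b = bj at *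
    generalize (D.base Ω).ζ ^ χ τ i = zi at *
    generalize (D.base Ω).ζ ^ χ τ j = zj at *
    generalize τ θ = t at *
    have hne : κ * zi * zj ≠ 0 := mul_ne_zero (mul_ne_zero hκ hζi) hζj
    apply mul_left_cancel₀ hne
    -- hi : Ai * bi * (κ * zi) = Bi * ai ; hj : Aj * bj * (κ * zj) = Bj * aj ; hθ' : zj * t = zi * θ
    calc κ * zi * zj * (t * (Ai * Bj) * (aj * bi)) =
        (Ai * bi * (κ * zi)) * (zj * t) * (Bj * aj) := by ring
      _ = (Bi * ai) * (zi * θ) * (Aj * bj * (κ * zj)) := by rw [hi, hθ', ← hj]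
      _ = _ := by ring
  obtain ⟨x, hx⟩ := exists_F hzfix
  have hx0 : x ≠ 0 := by
    rintro rfl
    rw [map_zero] at hx
    exact hz0 hx.symm
  refine ⟨x, hx0, ?_⟩
  -- the relation
  obtain ⟨t, ht, hrel⟩ := lam_rel (D.base Ω) hℓ2 hb ha ((D.base Ω).mul_ne hB1 ((D.base Ω).sI_ne hI))
    ((D.base Ω).mul_ne hB2 hI) hab
  have hri := hrel i
  have hrj := hrel j
  have eU : ∀ k, (D.base Ω).lam k ((D.base Ω).U (B1 * (D.base Ω).sI 1 I)) =
      (D.base Ω).lam k ((D.base Ω).U B1) * (D.base Ω).lam k ((D.base Ω).U I) := fun k => by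
    rw [(D.base Ω).U_mul hB1 ((D.base Ω).sI_ne hI), (D.base Ω).U_sI 1 hI,
      (D.base Ω).lam_mul k ((D.base Ω).U_ne _) ((D.base Ω).U_ne _)]
  have eV : ∀ k, (D.base Ω).lam k ((D.base Ω).U (B2 * I)) =
      (D.base Ω).lam k ((D.base Ω).U B2) * (D.base Ω).lam k ((D.base Ω).U I) := fun k => by
    rw [(D.base Ω).U_mul hB2 hI, (D.base Ω).lam_mul k ((D.base Ω).U_ne _) ((D.base Ω).U_ne _)]
  rw [eU, eV] at hri hrj
  have hIi := (D.base Ω).lam_ne i ((D.base Ω).U_ne I)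
  have hIj := (D.base Ω).lam_ne j ((D.base Ω).U_ne I)
  rw [hx, hz, div_pow, mul_pow, mul_pow, mul_pow]
  rw [div_mul_eq_mul_div, eq_div_iff (mul_ne_zero (pow_ne_zero _ haj) (pow_ne_zero _ hbi))]
  apply mul_left_cancel₀ (mul_ne_zero (mul_ne_zero ht hIi) hIj)
  generalize (D.base Ω).lead i a ^ ℓ = ai at *
  generalize (D.base Ω).lead j a ^ ℓ = aj at *
  generalize (D.base Ω).lead i b ^ ℓ = bi at *
  generalize (D.base Ω).lead j b ^ ℓ = bj at *
  generalize (D.base Ω).lam i ((D.base Ω).U B1) = B1i at *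
  generalize (D.base Ω).lam j ((D.base Ω).U B1) = B1j at *
  generalize (D.base Ω).lam i ((D.base Ω).U B2) = B2i at *
  generalize (D.base Ω).lam j ((D.base Ω).U B2) = B2j at *
  generalize (D.base Ω).lam i ((D.base Ω).U I) = Ii at *
  generalize (D.base Ω).lam j ((D.base Ω).U I) = Ij at *
  generalize θ ^ ℓ = T at *
  -- hri : bi * (B1i * Ii) = t * (ai * (B2i * Ii)); hrj : bj * (B1j * Ij) = t * (aj * (B2j * Ij))
  calc t * Ii * Ij * (T * (B1i * B2j) * (aj * bi)) =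
      T * (bi * (B1i * Ii)) * (t * (aj * (B2j * Ij))) := by ring
    _ = T * (t * (ai * (B2i * Ii))) * (bj * (B1j * Ij)) := by rw [hri, ← hrj]
    _ = _ := by ring

end

end Pool.Agent.T3h73.SL
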