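import Pool.Agent.T3h73.SL.D.Pts
import Pool.Agent.T3h73.SL.Stm2

/-! Project SL: the places above `ℓ`. -/

set_option autoImplicit false
set_option linter.all false

open Polynomial IsDedekindDomain

namespace Pool.Agent.T3h73.SL

open Pool.Agent.Y713.SE Pool.Agent.Y713.SE.Dat

section
variable {ℓ : ℕ} {K : Type} [Field K] {D : Dat ℓ 2 K}
variable {F Ω : Type} [Field F] [Algebra K F] [Field Ω] [Algebra K Ω] [Algebra F Ω]
  [IsScalarTower K F Ω]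

/-- an invariant ideal of small degree -/
theorem exists_B' (hDIM : S_DIM) {χv : (Ω ≃ₐ[F] Ω) → Fin 2 → ℕ} {P : ClassGroup (D.base Ω).A}
    (hP : ∀ τ, D.mC (rs K τ) P = P * cl ((D.base Ω).PT (χv τ))) :
    ∃ B : Ideal (D.base Ω).A, B ≠ ⊥ ∧ (∀ τ : Ω ≃ₐ[F] Ω, D.mI (rs K τ) B = B) ∧
      cl B * (D.base Ω).sC P = P ∧ ((D.base Ω).U B).natDegree < ℓ := by
  obtain ⟨B, hB, hBc, hmin⟩ := (D.base Ω).exists_min (P / (D.base Ω).sC P)
  obtain ⟨I', hI', hI'c, hI'd⟩ := hDIM ℓ Ω (D.base Ω) (P / (D.base Ω).sC P)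
  refine ⟨B, hB, fun τ => ?_, by rw [hBc, div_mul_cancel], ?_⟩
  · symm
    apply (D.base Ω).can_unique hB (D.mI_ne _ hB) _ hmin
    · rw [D.U_mI _ hB, natDegree_map]
    · rw [← D.mC_cl _ hB, hBc, _root_.map_div, mC_sC, hP, map_mul, sC_cl _ ((D.base Ω).PT_ne _),
        sI_PT, mul_div_mul_right_eq_div]
  · exact (hmin I' hI' (by rw [hI'c, hBc])).trans_lt hI'd

variable {L : Type} [Field L] [Algebra K L] [IsGalois K L]

theorem above (hDIM : S_DIM) (h2 : ℓ ≠ 2) (h : Is01 D) [CharZero F] [IsGalois F Ω] [IsSepClosed Ω]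
    {χ : (L ≃ₐ[K] L) → Fin 2 → ℕ}
    (ht : D.Triv F Ω (fun σ => cl ((D.base L).PT (χ σ)))) (kd : D.KD χ) :
    ∃ (a b : ℕ) (x : F) (U₀ : F[X]), x ≠ 0 ∧ Adm ℓ (algebraMap K F D.δ) U₀ ∧
      algebraMap K F (kd.d 0 1) * algebraMap K F D.δ ^ b * U₀.eval 0 =
        algebraMap K F D.δ ^ a * x ^ ℓ * U₀.eval (-1) := by
  obtain ⟨ι, P, hP⟩ := ht
  obtain ⟨χv, h1, h3⟩ := D.transfer (Q := 1) (χ' := χ) hP
    (fun σ => by rw [map_one, div_one, div_one]) kd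
  rw [map_one, div_one] at h1
  obtain ⟨B, hB, hBinv, hBc, hBd⟩ := exists_B' hDIM h1
  obtain ⟨m, J, hJ, hBJ, hJe⟩ := exists_fac (D.base Ω) _ B hB le_rfl
  have hJinv := inv_cofactor D hBJ hBinv
  have hdeg : ((D.base Ω).U J).natDegree < ℓ := by
    have h4 : ((D.base Ω).U B).natDegree = ((D.base Ω).U ((D.base Ω).PT m)).natDegree +
        ((D.base Ω).U J).natDegree := by
      rw [hBJ, (D.base Ω).deg_mul ((D.base Ω).PT_ne m) hJ]
    omega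
  obtain ⟨U₀, hm, hU⟩ := exists_U0 D hJ hJinv
  have hadm := adm_of_inv h hJ hJinv hdeg hJe hm hU
  have hθ0 : ι (kd.θ 0 1) ≠ 0 := (_root_.map_ne_zero _).2 (kd.h0 0 1)
  obtain ⟨x, hx, hrel⟩ := locA' D h2 (F := F) (Ω := Ω) (χ := χv) (R := P) h1 (i := 0) (j := 1)
    hθ0 (fun τ => h3 τ 0 1) (B1 := B) (B2 := ⊤) hB
    (by rw [← Ideal.one_eq_top]; exact one_ne_zero) hBinv
    (fun τ => Ideal.map_top _) (by
      rw [hBc, ← Ideal.one_eq_top]
      have : cl (1 : Ideal (D.base Ω).A) = 1 := by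
        have := cl_PT_of_modEq (D.base Ω) (m := fun _ => 0) (fun _ _ => rfl)
        rwa [show (D.base Ω).PT (fun _ => 0) = 1 by unfold PT; simp] at this
      rw [this, one_mul])
  have hUJ0 : ((D.base Ω).U J).eval ((D.base Ω).e 0) = algebraMap F Ω (U₀.eval 0) := by
    rw [(h.base Ω).h0, ← hU, ← map_zero (algebraMap F Ω), eval_map_apply]
  have hUJ1 : ((D.base Ω).U J).eval ((D.base Ω).e 1) = algebraMap F Ω (U₀.eval (-1)) := by
    have : (-1 : Ω) = algebraMap F Ω (-1) := by rw [map_neg, map_one]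
    rw [(h.base Ω).h1, ← hU, this, eval_map_apply]
  have hB0 : (D.base Ω).lam 0 ((D.base Ω).U B) =
      (algebraMap K Ω D.δ ^ m 0)⁻¹ * algebraMap F Ω (U₀.eval 0) := by
    rw [hBJ, (D.base Ω).U_mul ((D.base Ω).PT_ne m) hJ, (D.base Ω).lam_mul 0 ((D.base Ω).U_ne _)
      ((D.base Ω).U_ne _), (h.base Ω).lam0_PT, (D.base Ω).lam_of_eval 0 (hJe 0), hUJ0]
    rfl
  have hB1 : (D.base Ω).lam 1 ((D.base Ω).U B) =
      (-1) ^ (m 0 + m 1) * (algebraMap K Ω D.δ ^ m 1)⁻¹ * algebraMap F Ω (U₀.eval (-1)) := by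
    rw [hBJ, (D.base Ω).U_mul ((D.base Ω).PT_ne m) hJ, (D.base Ω).lam_mul 1 ((D.base Ω).U_ne _)
      ((D.base Ω).U_ne _), (h.base Ω).lam1_PT, (D.base Ω).lam_of_eval 1 (hJe 1), hUJ1]
    rfl
  rw [U_top, lam_one, lam_one, mul_one, mul_one, hB0, hB1, ← map_pow, kd.hd, AlgHom.commutes]
    at hrel
  refine ⟨m 0, m 1, (-1) ^ (m 0 + m 1) * x, U₀, mul_ne_zero (pow_ne_zero _ (by simp)) hx,
    ⟨hm, hadm.1, hadm.2.1, hadm.2.2.1, hadm.2.2.2⟩, ?_⟩
  apply (algebraMap F Ω).injective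
  rw [mul_pow, neg_one_pow_pow D.hp h2]
  have dδ : algebraMap K Ω D.δ ≠ 0 := (_root_.map_ne_zero _).2 D.hδ
  simp only [map_mul, map_pow, map_neg, map_one, ← IsScalarTower.algebraMap_apply]
  have e1 := pow_ne_zero (m 0) dδ
  have e2 := pow_ne_zero (m 1) dδ
  field_simp at hrel
  linear_combination hrel

end

end Pool.Agent.T3h73.SL
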