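import Pool.Agent.T3h73.SL.D.LA

/-! Project SL: the places not above `ℓ`. -/

set_option autoImplicit false
set_option linter.all false

open Polynomial IsDedekindDomain

namespace Pool.Agent.T3h73.SL

open Pool.Agent.Y713.SE Pool.Agent.Y713.SE.Dat

section
variable {R : Type} [CommRing R] [IsDedekindDomain R] {K : Type} [Field K] [Algebra R K]
  [IsFractionRing R K] {v : HeightOneSpectrum R}

lemma exists_val (v : HeightOneSpectrum R) {β : WithZero (Multiplicative ℤ)} (hβ : β ≠ 0) :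
    ∃ x : K, x ≠ 0 ∧ v.valuation K x = β := by
  obtain ⟨ϖ, hϖ⟩ := v.valuation_exists_uniformizer K
  have hϖ0 : ϖ ≠ 0 := by
    rintro rfl
    rw [map_zero] at hϖ
    exact WithZero.exp_ne_zero hϖ.symm
  obtain ⟨k, hk⟩ : ∃ k : ℤ, β = WithZero.exp k := ⟨_, (WithZero.exp_log hβ).symm⟩
  refine ⟨ϖ ^ (-k), zpow_ne_zero _ hϖ0, ?_⟩
  rw [map_zpow₀, hϖ, hk, ← WithZero.exp_zsmul]
  simp

variable {ℓ n : ℕ} (D : Dat ℓ n K)
variable {L : Type} [Field L] [Algebra K L] [IsGalois K L]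
variable {Ω : Type} [Field Ω] [Algebra (v.adicCompletion K) Ω]
  [Algebra K Ω] [IsScalarTower K (v.adicCompletion K) Ω] [IsSepClosed Ω]
  [IsGalois (v.adicCompletion K) Ω]

/-- places at which the valuation of the twisting element is divisible by `ℓ` -/
theorem even_place {p : ℕ} [ExpChar Ω p] (hv : D.Sep1 v) (hδ : Pw ℓ (v.valuation K D.δ))
    (hℓ : v.valuation K (ℓ : K) = 1) {χ : (L ≃ₐ[K] L) → Fin n → ℕ}
    (ht : D.Triv (v.adicCompletion K) Ω (fun σ => cl ((D.base L).PT (χ σ))))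
    (kd : D.KD χ) (i j : Fin n) : Pw ℓ (v.valuation K (kd.d i j)) := by
  obtain ⟨S, hS⟩ := exists_LSv v ℓ Ω hℓ
  replace hS : Cpt S := hS
  obtain ⟨ι, P, hP⟩ := ht
  obtain ⟨χv, h1, h2⟩ := D.transfer (Q := 1) (χ' := χ) hP
    (fun σ => by rw [map_one, div_one, div_one]) kd
  rw [map_one, div_one] at h1
  obtain ⟨B, hB, hBinv, hBc⟩ := D.exists_B h1
  have hone : ∀ i j, i ≠ j → S.nrm ((D.base Ω).e i - (D.base Ω).e j) = 1 := fun i j hij => by
    rw [D.e_sub]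
    exact hS.one (hv i j hij)
  obtain ⟨t, htG, htδ⟩ : ∃ t : ℝ, S.Gam t ∧ S.nrm (D.base Ω).δ = t ^ ℓ := by
    obtain ⟨β, hβ⟩ := hδ
    have hβ0 : β ≠ 0 := by
      rintro rfl
      rw [zero_pow D.pos.ne', Valuation.zero_iff] at hβ
      exact D.hδ hβ
    obtain ⟨x, hx0, hx⟩ := exists_val (K := K) v hβ0
    refine ⟨_, ⟨algebraMap K _ x, (_root_.map_ne_zero _).2 hx0, rfl⟩, ?_⟩
    have h3 : S.nrm (algebraMap (v.adicCompletion K) Ω (algebraMap K _ D.δ)) =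
        S.nrm (algebraMap (v.adicCompletion K) Ω (algebraMap K _ x ^ ℓ)) := by
      rw [hS.eq_iff, map_pow, val_coe, val_coe, hβ, hx]
    rw [map_pow, map_pow, ← IsScalarTower.algebraMap_apply] at h3
    exact h3
  obtain ⟨μ, g, m, hμ, hg, hL⟩ := D.tame1 S (p := p) hone hB hBinv
  have ht0 := htG.ne
  have hL' : ∀ i, D.Lam S i B = μ * (g i * t⁻¹ ^ m i) ^ ℓ *
      D.Lam S i ((D.base Ω).PT (fun _ => 0)) := by
    intro i
    rw [hL, D.Lam_PT_sep1 hS hv, D.Lam_PT_sep1 hS hv, htδ, pow_zero, mul_one, mul_pow,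
      ← inv_pow, ← pow_mul, ← pow_mul, mul_comm ℓ (m i)]
    ring
  have hcl : cl B * (D.base Ω).sC P = cl ((D.base Ω).PT (fun _ => 0)) * P := by
    rw [hBc, cl_PT]; simp
  have hθ0 : ι (kd.θ i j) ≠ 0 := (_root_.map_ne_zero _).2 (kd.h0 i j)
  obtain ⟨x, hx, hxθ⟩ := D.gam_of S h1 hθ0 (fun τ => h2 τ i j) hB hBinv hcl hμ
    (fun i => (hg i).mul (htG.inv.pow (m i))) hL'
  have h3 : S.nrm (algebraMap (v.adicCompletion K) Ω (algebraMap K (v.adicCompletion K) (kd.d i j))) =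
      S.nrm (algebraMap (v.adicCompletion K) Ω x) ^ ℓ := by
    rw [hxθ, ← map_pow, ← map_pow, kd.hd, AlgHom.commutes, ← IsScalarTower.algebraMap_apply]
  exact hS.pw rfl h3

end

end Pool.Agent.T3h73.SL
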