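import Pool.Agent.T3h73.SL.D.Abv

/-! Project SL: Galois descent for ideals and ideal classes of the coordinate ring. -/

set_option autoImplicit false
set_option linter.all false

open Polynomial IsDedekindDomain

namespace Pool.Agent.T3h73.SL

open Pool.Agent.Y713.SE Pool.Agent.Y713.SE.Dat

section
variable {ℓ n : ℕ} {K : Type} [Field K] (D : Dat ℓ n K) {L : Type} [Field L] [Algebra K L]

/-- the coordinates of a function -/
noncomputable def co (j : Fin ℓ) (k : ℕ) (a : (D.base L).A) : L := ((D.base L).c j a).coeff k

lemma co_add (j : Fin ℓ) (k : ℕ) (a b : (D.base L).A) :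
    co D j k (a + b) = co D j k a + co D j k b := by
  unfold co; rw [map_add, coeff_add]

lemma co_sub (j : Fin ℓ) (k : ℕ) (a b : (D.base L).A) :
    co D j k (a - b) = co D j k a - co D j k b := by
  unfold co; rw [map_sub, coeff_sub]

lemma co_smul (j : Fin ℓ) (k : ℕ) (u : L) (a : (D.base L).A) :
    co D j k (algebraMap L[X] (D.base L).A (C u) * a) = u * co D j k a := by
  unfold co; rw [← Algebra.smul_def, map_smul, smul_eq_mul, coeff_C_mul]

lemma co_mp {L' : Type} [Field L'] [Algebra K L'] (φ : L →ₐ[K] L') (j : Fin ℓ) (k : ℕ)
    (a : (D.base L).A) : co D j k (D.mp φ a) = φ (co D j k a) := by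
  unfold co
  rw [c_mp, coeff_map]
  rfl

lemma co_ext {a b : (D.base L).A} (h : ∀ j k, co D j k a = co D j k b) : a = b :=
  (D.base L).ext_c fun j => Polynomial.ext fun k => h j k

/-- the support -/
noncomputable def sp (a : (D.base L).A) : Finset (Fin ℓ × ℕ) := by
  classical
  exact Finset.univ.biUnion fun j => (((D.base L).c j a).support).map ⟨fun k => (j, k), fun x y h => by
    simpa using h⟩

lemma mem_sp {a : (D.base L).A} {j : Fin ℓ} {k : ℕ} : (j, k) ∈ sp D a ↔ co D j k a ≠ 0 := by
  classical
  unfold sp co
  simp only [Finset.mem_biUnion, Finset.mem_univ, true_and, Finset.mem_map, mem_support_iff,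
    Function.Embedding.coeFn_mk, Prod.mk.injEq]
  constructor
  · rintro ⟨j', k', h, rfl, rfl⟩; exact h
  · intro h; exact ⟨j, k, h, rfl, rfl⟩

variable [IsGalois K L]

/-- a function fixed by the Galois group comes from the base field -/
lemma exists_mp {a : (D.base L).A} (h : ∀ τ : L ≃ₐ[K] L, D.mp (au τ) a = a) :
    ∃ a₀ : (D.base K).A, D.mp (Algebra.ofId K L) a₀ = a := by
  have h1 : ∀ j k, ∃ c : K, algebraMap K L c = co D j k a := by
    intro j k
    refine exists_F (F := K) fun τ => ?_
    conv_rhs => rw [← h τ, co_mp]
    rfl
  choose c hc using h1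
  refine ⟨∑ j : Fin ℓ, (∑ k ∈ ((D.base L).c j a).support, C (c j k) * X ^ k : K[X]) •
    (D.base K).y ^ (j : ℕ), co_ext D fun j k => ?_⟩
  rw [co_mp]
  unfold co
  rw [(D.base K).c_sum, finset_sum_coeff]
  simp only [coeff_C_mul, coeff_X_pow]
  show algebraMap K L _ = _
  rw [map_sum]
  simp only [map_mul, hc]
  by_cases hk : k ∈ ((D.base L).c j a).support
  · rw [Finset.sum_eq_single k]
    · simp [co]
    · intro b _ hb
      rw [if_neg (Ne.symm hb)]; simp
    · intro h'; exact absurd hk h'
  · rw [Finset.sum_eq_zero]
    · exact (notMem_support_iff.1 hk).symm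
    · intro b hb
      rw [if_neg]
      · simp
      · rintro rfl; exact hk hb

/-- Galois descent for ideals -/
theorem ideal_descent {I : Ideal (D.base L).A} (hinv : ∀ τ : L ≃ₐ[K] L, D.mI (au τ) I = I) :
    D.mI (Algebra.ofId K L) (I.comap (D.mp (Algebra.ofId K L))) = I := by
  apply le_antisymm
  · exact Ideal.map_comap_le
  set M := D.mI (Algebra.ofId K L) (I.comap (D.mp (Algebra.ofId K L))) with hM
  have key : ∀ N : ℕ, ∀ a ∈ I, (sp D a).card ≤ N → a ∈ M := by
    intro N
    induction N with
    | zero =>
      intro a _ hN
      have : a = 0 := by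
        refine co_ext D fun j k => ?_
        have h0 : co D j k (0 : (D.base L).A) = 0 := by unfold co; rw [map_zero, coeff_zero]
        rw [h0]
        by_contra hne
        have := mem_sp D |>.2 hne
        rw [Finset.card_eq_zero.1 (Nat.le_zero.1 hN)] at this
        exact absurd this (Finset.notMem_empty _)
      rw [this]; exact M.zero_mem
    | succ N ih =>
      intro a ha hN
      by_cases h0 : ∃ j k, co D j k a ≠ 0
      · obtain ⟨j, k, hjk⟩ := h0
        -- normalise
        obtain ⟨b, hb⟩ : ∃ b, b = algebraMap L[X] (D.base L).A (C (co D j k a)⁻¹) * a := ⟨_, rfl⟩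
        have hbI : b ∈ I := by rw [hb]; exact I.mul_mem_left _ ha
        have hb1 : co D j k b = 1 := by rw [hb, co_smul, inv_mul_cancel₀ hjk]
        have hab : a = algebraMap L[X] (D.base L).A (C (co D j k a)) * b := by
          rw [hb, ← mul_assoc, ← map_mul, ← C_mul, mul_inv_cancel₀ hjk, C_1, map_one, one_mul]
        have hsb : sp D b = sp D a := by
          ext ⟨j', k'⟩
          rw [mem_sp, mem_sp, hb, co_smul]
          simp [hjk]
        rw [hab]
        refine M.mul_mem_left _ ?_
        by_cases hfix : ∀ τ : L ≃ₐ[K] L, D.mp (au τ) b = b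
        · obtain ⟨b₀, rfl⟩ := exists_mp D hfix
          exact Ideal.mem_map_of_mem _ hbI
        · push Not at hfix
          obtain ⟨τ, hτ⟩ := hfix
          obtain ⟨d, hd⟩ : ∃ d, d = D.mp (au τ) b - b := ⟨_, rfl⟩
          have hdI : d ∈ I := by
            rw [hd]
            refine I.sub_mem ?_ hbI
            have := D.mem_mI (au τ) hbI
            rwa [hinv] at this
          have hcod : ∀ j' k', co D j' k' d = τ (co D j' k' b) - co D j' k' b := by
            intro j' k'
            rw [hd, co_sub, co_mp]; rfl
          have hdjk : co D j k d = 0 := by rw [hcod, hb1, map_one, sub_self]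
          have hsub : sp D d ⊆ (sp D b).erase (j, k) := by
            rintro ⟨j', k'⟩ h'
            rw [mem_sp] at h'
            rw [Finset.mem_erase, mem_sp]
            refine ⟨?_, ?_⟩
            · intro he
              rw [Prod.mk.injEq] at he
              rw [he.1, he.2, hdjk] at h'
              exact h' rfl
            · intro h0
              rw [hcod, h0, map_zero, sub_self] at h'
              exact h' rfl
          have hcard : (sp D b).card ≤ N + 1 := by rw [hsb]; exact hN
          have hmem : (j, k) ∈ sp D b := by rw [mem_sp, hb1]; exact one_ne_zero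
          have hce := Finset.card_erase_of_mem hmem
          have hdM : d ∈ M := ih d hdI (by
            have := Finset.card_le_card hsub
            omega)
          obtain ⟨j', k', hne⟩ : ∃ j' k', co D j' k' d ≠ 0 := by
            by_contra hcon
            push Not at hcon
            apply hτ
            rw [← sub_eq_zero, ← hd]
            refine co_ext D fun j k => ?_
            have h0 : co D j k (0 : (D.base L).A) = 0 := by unfold co; rw [map_zero, coeff_zero]
            rw [h0, hcon]
          obtain ⟨u, hu⟩ : ∃ u, u = co D j' k' b / co D j' k' d := ⟨_, rfl⟩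
          obtain ⟨e, he⟩ : ∃ e, e = b - algebraMap L[X] (D.base L).A (C u) * d := ⟨_, rfl⟩
          have heI : e ∈ I := by rw [he]; exact I.sub_mem hbI (I.mul_mem_left _ hdI)
          have hse : sp D e ⊆ (sp D b).erase (j', k') := by
            rintro ⟨j'', k''⟩ h'
            rw [mem_sp, he, co_sub, co_smul] at h'
            rw [Finset.mem_erase, mem_sp]
            refine ⟨?_, ?_⟩
            · intro hee
              rw [Prod.mk.injEq] at hee
              rw [hee.1, hee.2, hu, div_mul_cancel₀ _ hne, sub_self] at h'
              exact h' rfl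
            · intro h0
              apply h'
              have h1 : co D j'' k'' d = 0 := by rw [hcod, h0, map_zero, sub_self]
              rw [h0, h1, mul_zero, sub_self]
          have hmem' : (j', k') ∈ sp D b := by
            rw [mem_sp]
            intro h0
            apply hne
            rw [hcod, h0, map_zero, sub_self]
          have hce' := Finset.card_erase_of_mem hmem'
          have heM : e ∈ M := ih e heI (by
            have := Finset.card_le_card hse
            omega)
          have : b = e + algebraMap L[X] (D.base L).A (C u) * d := by rw [he]; ring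
          rw [this]
          exact M.add_mem heM (M.mul_mem_left _ hdM)
      · push Not at h0
        have : a = 0 := by
          refine co_ext D fun j k => ?_
          have h1 : co D j k (0 : (D.base L).A) = 0 := by unfold co; rw [map_zero, coeff_zero]
          rw [h1, h0]
        rw [this]; exact M.zero_mem
  exact fun a ha => key _ a ha le_rfl

end

end Pool.Agent.T3h73.SL
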