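import Pool.Agent.T3h73.SL.D.Dsc2

/-! Project SL: the local conditions. -/

set_option autoImplicit false
set_option linter.all false

open Polynomial IsDedekindDomain NumberField

namespace Pool.Agent.T3h73.SL

open Pool.Agent.Y713.SE Pool.Agent.Y713.SE.Dat
open Pool.Agent.Y713 (Jac.Gal)

section
variable {ℓ : ℕ} {K : Type} [Field K] [NumberField K] {D : Dat ℓ 2 K}

lemma kd_ne {n : ℕ} {K : Type} [Field K] {D : Dat ℓ n K} {L : Type} [Field L] [Algebra K L]
    {χ : (L ≃ₐ[K] L) → Fin n → ℕ} (kd : D.KD χ) (i j : Fin n) : kd.d i j ≠ 0 := by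
  intro h0
  have := kd.hd i j
  rw [h0, map_zero] at this
  exact kd.h0 i j (pow_eq_zero_iff D.pos.ne' |>.1 this)

/-- the unit of the Kummer datum -/
noncomputable def du {χ : (SeparableClosure K ≃ₐ[K] SeparableClosure K) → Fin 2 → ℕ}
    (kd : D.KD χ) : Kˣ := Units.mk0 (kd.d 0 1) (kd_ne kd 0 1)

/-- the unit of the twist -/
noncomputable def δu (D : Dat ℓ 2 K) : Kˣ := Units.mk0 D.δ D.hδ

theorem loc_cond (hDIM : S_DIM) (h2 : ℓ ≠ 2) (h : Is01 D) (v : Pl K)
    {χ : (SeparableClosure K ≃ₐ[K] SeparableClosure K) → Fin 2 → ℕ}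
    (hc : D.Coc (fun σ => cl ((D.base (SeparableClosure K)).PT (χ σ))))
    (ht : D.Triv (v.adicCompletion K) (SeparableClosure (v.adicCompletion K))
      (fun σ => cl ((D.base (SeparableClosure K)).PT (χ σ)))) (kd : D.KD χ) :
    loc v (du kd) ∈ LC ℓ v (loc v (δu D)) := by
  obtain ⟨p, hexp⟩ := ExpChar.exists K
  haveI := hexp
  haveI : ExpChar (SeparableClosure K) p :=
    expChar_of_injective_algebraMap (algebraMap K (SeparableClosure K)).injective p
  haveI : ExpChar (SeparableClosure (v.adicCompletion K)) p :=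
    expChar_of_injective_algebraMap
      (algebraMap K (SeparableClosure (v.adicCompletion K))).injective p
  haveI : CharZero (v.adicCompletion K) :=
    charZero_of_injective_algebraMap (algebraMap K (v.adicCompletion K)).injective
  have hδv : (loc v (δu D) : v.adicCompletion K) = algebraMap K _ D.δ := rfl
  have hdv : (loc v (du kd) : v.adicCompletion K) = algebraMap K _ (kd.d 0 1) := rfl
  unfold LC
  split_ifs with h1 h3
  · -- above ℓ
    obtain ⟨a, b, x, U₀, hx, hadm, hrel⟩ := above hDIM h2 h ht kd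
    have hU0 : U₀.eval 0 ≠ 0 := hadm.2.2.1
    have hU1 : U₀.eval (-1) ≠ 0 := hadm.2.2.2.1
    set w : (v.adicCompletion K)ˣ := Units.mk0 (U₀.eval (-1) / U₀.eval 0) (div_ne_zero hU1 hU0)
    have hw : w ∈ Lo ℓ (loc v (δu D)) := by
      apply Subgroup.subset_closure
      right; right
      refine ⟨U₀, hadm, ?_⟩
      show U₀.eval (-1) / U₀.eval 0 * U₀.eval 0 = _
      rw [div_mul_cancel₀ _ hU0]
    have hδ : loc v (δu D) ∈ Lo ℓ (loc v (δu D)) := by
      apply Subgroup.subset_closure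
      right; left; rfl
    have hxx : (Units.mk0 x hx) ^ ℓ ∈ Lo ℓ (loc v (δu D)) := by
      apply Subgroup.subset_closure
      left; exact ⟨_, rfl⟩
    have e : loc v (du kd) = loc v (δu D) ^ a * (Units.mk0 x hx) ^ ℓ * w * (loc v (δu D) ^ b)⁻¹ := by
      rw [eq_mul_inv_iff_mul_eq]
      apply Units.ext
      simp only [Units.val_mul, Units.val_pow_eq_pow_val, hδv, hdv, Units.val_mk0]
      show _ = algebraMap K _ D.δ ^ a * x ^ ℓ * (U₀.eval (-1) / U₀.eval 0)
      rw [mul_div_assoc', eq_div_iff hU0]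
      exact hrel
    rw [e]
    exact mul_mem (mul_mem (mul_mem (pow_mem hδ _) hxx) hw) (inv_mem (pow_mem hδ _))
  · -- even valuation
    rw [not_not] at h1
    rw [hδv, val_coe] at h3
    show Pw ℓ (Valued.v (loc v (du kd) : v.adicCompletion K))
    rw [hdv, val_coe]
    exact even_place D (p := p) (h.sep1 v) h3 h1 ht kd 0 1
  · rw [not_not] at h1
    rw [hδv, val_coe] at h3
    obtain ⟨m, hm⟩ := D.twist_place (p := p) (h.sep1 v) h3 h1 ht
    obtain ⟨Q, χ', hQ, hχ', hc'⟩ := D.exists_adj (p := p) m hc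
    obtain ⟨kd'⟩ := D.exists_KD hc'
    obtain ⟨x, hx⟩ := hm Q χ' kd' hQ hχ' 0 1
    obtain ⟨y, hy, hrel⟩ := adj_rel h2 h hQ hχ' kd kd'
    have hx0 : x ≠ 0 := by
      rintro rfl
      rw [zero_pow D.pos.ne'] at hx
      exact kd_ne kd' 0 1 ((_root_.map_eq_zero _).1 hx)
    have hy0 : algebraMap K (v.adicCompletion K) y ≠ 0 := (_root_.map_ne_zero _).2 hy
    have e : loc v (du kd) = (Units.mk0 _ hx0 * Units.mk0 _ hy0) ^ ℓ *
        (loc v (δu D) ^ m 0 * (loc v (δu D) ^ m 1)⁻¹) := by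
      rw [← mul_assoc, eq_mul_inv_iff_mul_eq]
      apply Units.ext
      simp only [Units.val_mul, Units.val_pow_eq_pow_val, hδv, hdv, Units.val_mk0]
      rw [← map_pow, ← map_pow, ← map_mul, hrel, map_mul, map_mul, hx, mul_pow, map_pow, map_pow]
      ring
    rw [e]
    refine mul_mem (Subgroup.mem_sup_left ⟨_, rfl⟩) (Subgroup.mem_sup_right (mul_mem ?_ (inv_mem ?_)))
    · exact Subgroup.npow_mem_zpowers _ _
    · exact Subgroup.npow_mem_zpowers _ _

end

end Pool.Agent.T3h73.SL
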