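import Pool.Agent.T3h73.SL.D.D12

/-! Project SL: the curve `y ^ ℓ = δ x (x + 1)`. -/

set_option autoImplicit false
set_option linter.all false

open Polynomial IsDedekindDomain

namespace Pool.Agent.T3h73.SL

open Pool.Agent.Y713.SE Pool.Agent.Y713.SE.Dat

variable {ℓ : ℕ} {K : Type} [Field K]

/-- the branch points are `0` and `-1` -/
structure Is01 (D : Dat ℓ 2 K) : Prop where
  h0 : D.e 0 = 0
  h1 : D.e 1 = -1

lemma Is01.base {D : Dat ℓ 2 K} (h : Is01 D) (L : Type) [Field L] [Algebra K L] :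
    Is01 (D.base L) := by
  refine ⟨?_, ?_⟩
  · rw [base_e, h.h0, map_zero]
  · rw [base_e, h.h1, map_neg, map_one]

/-- the data of the curve -/
noncomputable def Dt (hℓ : ℓ.Prime) (h2 : ℓ ≠ 2) (hne : (ℓ : K) ≠ 0) {ζ : K}
    (hζ : IsPrimitiveRoot ζ ℓ) {δ : K} (hδ : δ ≠ 0) : Dat ℓ 2 K where
  hp := hℓ
  hne := hne
  ζ := ζ
  hζ := hζ
  δ := δ
  hδ := hδ
  e := ![0, -1]
  he := by
    intro i j h
    fin_cases i <;> fin_cases j <;> simp_all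
  hn := fun h => by
    have h3 := (Nat.prime_dvd_prime_iff_eq hℓ Nat.prime_two).1 h
    exact h2 h3

lemma Dt01 (hℓ : ℓ.Prime) (h2 : ℓ ≠ 2) (hne : (ℓ : K) ≠ 0) {ζ : K}
    (hζ : IsPrimitiveRoot ζ ℓ) {δ : K} (hδ : δ ≠ 0) : Is01 (Dt hℓ h2 hne hζ hδ) := ⟨rfl, rfl⟩

lemma Dt_f (hℓ : ℓ.Prime) (h2 : ℓ ≠ 2) (hne : (ℓ : K) ≠ 0) {ζ : K}
    (hζ : IsPrimitiveRoot ζ ℓ) {δ : K} (hδ : δ ≠ 0) :
    (Dt hℓ h2 hne hζ hδ).f = C δ * (X * (X + 1)) := by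
  unfold Dat.f
  rw [Fin.prod_univ_two]
  show C δ * ((X - C (0 : K)) * (X - C (-1 : K))) = _
  simp

section

variable {D : Dat ℓ 2 K}

lemma Is01.sep1 (h : Is01 D) {R : Type} [CommRing R] [IsDedekindDomain R] [Algebra R K]
    [IsFractionRing R K] (v : HeightOneSpectrum R) : D.Sep1 v := by
  intro i j hij
  fin_cases i <;> fin_cases j
  · exact absurd rfl hij
  · show v.valuation K (D.e 0 - D.e 1) = 1
    rw [h.h0, h.h1]; simp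
  · show v.valuation K (D.e 1 - D.e 0) = 1
    rw [h.h0, h.h1]; simp
  · exact absurd rfl hij

lemma Is01.ge0 (h : Is01 D) : D.ge 0 = D.δ := by
  unfold ge
  rw [D.g_eval]
  have : (Finset.univ.erase (0 : Fin 2)) = {1} := by decide
  rw [this, Finset.prod_singleton, h.h0, h.h1]; simp

lemma Is01.ge1 (h : Is01 D) : D.ge 1 = -D.δ := by
  unfold ge
  rw [D.g_eval]
  have : (Finset.univ.erase (1 : Fin 2)) = {0} := by decide
  rw [this, Finset.prod_singleton, h.h0, h.h1]; simp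

lemma Is01.lam0_PT (h : Is01 D) (m : Fin 2 → ℕ) :
    D.lam 0 (D.U (D.PT m)) = (D.δ ^ m 0)⁻¹ := by
  rw [D.U_PT, Fin.prod_univ_two, D.lam_mul 0 (pow_ne_zero _ (X_sub_C_ne_zero _))
    (pow_ne_zero _ (X_sub_C_ne_zero _)), D.lam_pow 0 (X_sub_C_ne_zero _),
    D.lam_pow 0 (X_sub_C_ne_zero _), D.lam_X_sub_C_self, D.lam_X_sub_C_ne (by decide), h.ge0,
    h.h0, h.h1]
  simp

lemma Is01.lam1_PT (h : Is01 D) (m : Fin 2 → ℕ) :
    D.lam 1 (D.U (D.PT m)) = (-1) ^ (m 0 + m 1) * (D.δ ^ m 1)⁻¹ := by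
  rw [D.U_PT, Fin.prod_univ_two, D.lam_mul 1 (pow_ne_zero _ (X_sub_C_ne_zero _))
    (pow_ne_zero _ (X_sub_C_ne_zero _)), D.lam_pow 1 (X_sub_C_ne_zero _),
    D.lam_pow 1 (X_sub_C_ne_zero _), D.lam_X_sub_C_self, D.lam_X_sub_C_ne (by decide), h.ge1,
    h.h0, h.h1, pow_add]
  have h1 : ((-D.δ)⁻¹) ^ m 1 = (-1) ^ m 1 * (D.δ ^ m 1)⁻¹ := by
    rw [inv_pow, neg_pow, mul_inv]
    congr 1
    rw [← inv_pow, inv_neg, inv_one]
  rw [h1, sub_zero]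
  ring

/-- signs are `ℓ`-th powers -/
lemma neg_one_pow_pow {F : Type} [Field F] {ℓ : ℕ} (hℓ : ℓ.Prime) (h2 : ℓ ≠ 2) (k : ℕ) :
    (((-1 : F)) ^ k) ^ ℓ = (-1) ^ k := by
  rw [← pow_mul, mul_comm, pow_mul, (hℓ.odd_of_ne_two h2).neg_one_pow]

end

end Pool.Agent.T3h73.SL
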