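import Pool.Agent.T3h73.SL.D.Fac

/-! Project SL: points of the curve and invariant ideals of small degree. -/

set_option autoImplicit false
set_option linter.all false

open Polynomial IsDedekindDomain

namespace Pool.Agent.T3h73.SL

open Pool.Agent.Y713.SE Pool.Agent.Y713.SE.Dat

section
variable {ℓ n : ℕ} {E : Type} [Field E] (D : Dat ℓ n E)

/-- evaluation at the point `(r, s)` -/
noncomputable def pt {r s : E} (h : s ^ ℓ = D.f.eval r) : D.A →+* E :=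
  AdjoinRoot.lift (evalRingHom r) s (by
    rw [eval₂_sub, eval₂_pow, eval₂_X, eval₂_C, coe_evalRingHom, h, sub_self])

variable {D}

lemma pt_alg {r s : E} (h : s ^ ℓ = D.f.eval r) (g : E[X]) :
    pt D h (algebraMap E[X] D.A g) = g.eval r := AdjoinRoot.lift_of _

lemma pt_y {r s : E} (h : s ^ ℓ = D.f.eval r) : pt D h D.y = s := AdjoinRoot.lift_root _

lemma pt_eq {r s : E} (h : s ^ ℓ = D.f.eval r) (a : D.A) :
    pt D h a = ∑ j : Fin ℓ, (D.c j a).eval r * s ^ (j : ℕ) := by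
  conv_lhs => rw [← D.sum_c a]
  rw [map_sum]
  refine Finset.sum_congr rfl fun j _ => ?_
  rw [Algebra.smul_def, map_mul, pt_alg, map_pow, pt_y]

lemma zeta_pow_mul {r s : E} (h : s ^ ℓ = D.f.eval r) (j : ℕ) :
    (D.ζ ^ j * s) ^ ℓ = D.f.eval r := by
  rw [mul_pow, D.ζpow, one_mul, h]

lemma pt_s {r s : E} (h : s ^ ℓ = D.f.eval r) (j : ℕ) (a : D.A) :
    pt D h (D.s j a) = pt D (zeta_pow_mul h j) a := by
  rw [pt_eq, pt_eq]
  refine Finset.sum_congr rfl fun k _ => ?_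
  rw [D.c_s, eval_mul, eval_C, mul_pow, ← pow_mul]
  ring

lemma pt_surj {r s : E} (h : s ^ ℓ = D.f.eval r) : Function.Surjective (pt D h) := fun c =>
  ⟨algebraMap E[X] D.A (C c), by rw [pt_alg, eval_C]⟩

instance ker_max {r s : E} (h : s ^ ℓ = D.f.eval r) : (RingHom.ker (pt D h)).IsMaximal :=
  RingHom.ker_isMaximal_of_surjective _ (pt_surj h)

/-- if all the points above `r` are zeros, the degree is at least `ℓ` -/
lemma deg_of_all {I : Ideal D.A} (hI : I ≠ ⊥) {r s : E} (h : s ^ ℓ = D.f.eval r) (hs : s ≠ 0)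
    (hall : ∀ a ∈ I, ∀ j, pt D h (D.s j a) = 0) : ℓ ≤ (D.U I).natDegree := by
  have h1 : I ≤ Ideal.span {algebraMap E[X] D.A (X - C r)} := by
    intro a ha
    refine D.mem_span_u (P := RingHom.ker (pt D h)) (ker_max h).isPrime (u := X - C r) ?_ ?_ ?_
    · intro g
      rw [RingHom.mem_ker, pt_alg, dvd_iff_isRoot]
      rfl
    · rw [RingHom.mem_ker, pt_y]; exact hs
    · intro j
      rw [RingHom.mem_ker]
      exact hall a ha j
  obtain ⟨J, hJ⟩ := Ideal.dvd_iff_le.2 h1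
  have hX : algebraMap E[X] D.A (X - C r) ≠ 0 := D.alg_ne (X_sub_C_ne_zero r)
  have hJ0 : J ≠ ⊥ := ne_of_mul_right D (hJ ▸ hI)
  rw [hJ, D.deg_mul (D.span_ne hX) hJ0, D.U_alg (monic_X_sub_C r), natDegree_pow,
    natDegree_X_sub_C]
  omega

/-- a point in the support -/
lemma exists_pt {I : Ideal D.A} (hI : I ≠ ⊥) {r s : E} (h : s ^ ℓ = D.f.eval r)
    (hr : (D.U I).eval r = 0) : ∃ j : ℕ, I ≤ RingHom.ker (pt D (zeta_pow_mul h j)) := by
  obtain ⟨j, hj⟩ := le_of_NI D hI (ker_max h).isPrime (by rw [RingHom.mem_ker, pt_alg, hr])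
  refine ⟨j, fun a ha => ?_⟩
  have h1 := hj (D.mem_sI.2 ⟨a, ha, rfl⟩)
  rw [RingHom.mem_ker, pt_s] at h1
  exact h1

end

section
variable {ℓ n : ℕ} {K : Type} [Field K] (D : Dat ℓ n K)
variable {F Ω : Type} [Field F] [Algebra K F] [Field Ω] [Algebra K Ω] [Algebra F Ω]
  [IsScalarTower K F Ω]

lemma f_eval_tau (τ : Ω ≃ₐ[F] Ω) {r s : Ω} (h : s ^ ℓ = (D.base Ω).f.eval r) (hr : τ r = r) :
    (τ s) ^ ℓ = (D.base Ω).f.eval r := by
  rw [← map_pow, h]
  have h1 := D.f_map (rs K τ)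
  conv_rhs => rw [← h1, ← hr]
  have : τ r = (rs K τ : Ω →+* Ω) r := rfl
  rw [this, eval_map_apply]
  rfl

lemma pt_tau (τ : Ω ≃ₐ[F] Ω) {r s : Ω} (h : s ^ ℓ = (D.base Ω).f.eval r) (hr : τ r = r)
    (a : (D.base Ω).A) :
    pt (D.base Ω) (f_eval_tau D τ h hr) (D.mp (rs K τ) a) = τ (pt (D.base Ω) h a) := by
  rw [pt_eq, pt_eq, map_sum]
  refine Finset.sum_congr rfl fun k _ => ?_
  rw [D.c_mp, map_mul, map_pow]
  congr 1
  conv_lhs => rw [← hr]
  have : τ r = (rs K τ : Ω →+* Ω) r := rfl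
  rw [this, eval_map_apply]
  rfl

lemma le_ker_tau {I : Ideal (D.base Ω).A} (hinv : ∀ τ : Ω ≃ₐ[F] Ω, D.mI (rs K τ) I = I)
    {r s : Ω} (h : s ^ ℓ = (D.base Ω).f.eval r) (hle : I ≤ RingHom.ker (pt (D.base Ω) h))
    (τ : Ω ≃ₐ[F] Ω) (hr : τ r = r) : I ≤ RingHom.ker (pt (D.base Ω) (f_eval_tau D τ h hr)) := by
  intro a ha
  have h1 : D.mp (rs K τ⁻¹) a ∈ I := by
    have := D.mem_mI (rs K τ⁻¹) ha
    rwa [hinv] at this
  have h2 := hle h1
  rw [RingHom.mem_ker] at h2 ⊢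
  have h3 := pt_tau D τ h hr (D.mp (rs K τ⁻¹) a)
  rw [h2, map_zero, mp_mp, ← rs_mul, mul_inv_cancel, rs_one, mp_id] at h3
  exact h3

/-- the ordinate of a point in the support of an invariant ideal of small degree is fixed by the
automorphisms fixing the abscissa -/
theorem fixed_of_small {I : Ideal (D.base Ω).A} (hI : I ≠ ⊥)
    (hinv : ∀ τ : Ω ≃ₐ[F] Ω, D.mI (rs K τ) I = I) (hdeg : ((D.base Ω).U I).natDegree < ℓ)
    {r s : Ω} (h : s ^ ℓ = (D.base Ω).f.eval r) (hs : s ≠ 0)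
    (hle : I ≤ RingHom.ker (pt (D.base Ω) h)) (τ : Ω ≃ₐ[F] Ω) (hr : τ r = r) : τ s = s := by
  by_contra hne
  have hζfix : ∀ (k : ℕ), τ ((D.base Ω).ζ ^ k) = (D.base Ω).ζ ^ k := fun k => by
    rw [map_pow]; congr 1; exact (rs K τ).commutes _
  obtain ⟨k, hk⟩ : ∃ k : ℕ, τ s = (D.base Ω).ζ ^ k * s := by
    have h1 : (τ s / s) ^ ℓ = 1 := by
      rw [div_pow, f_eval_tau D τ h hr, h, div_self]
      rw [← h]; exact pow_ne_zero _ hs
    haveI : NeZero ℓ := ⟨D.pos.ne'⟩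
    obtain ⟨k, -, hk⟩ := (D.base Ω).hζ.eq_pow_of_pow_eq_one h1
    exact ⟨k, by rw [hk, div_mul_cancel₀ _ hs]⟩
  have hkℓ : ¬ ℓ ∣ k := by
    rintro ⟨t, rfl⟩
    rw [pow_mul, (D.base Ω).hζ.pow_eq_one, one_pow, one_mul] at hk
    exact hne hk
  have hit : ∀ i : ℕ, (τ ^ i) r = r ∧ (τ ^ i) s = (D.base Ω).ζ ^ (k * i) * s := by
    intro i
    induction i with
    | zero => exact ⟨rfl, by simp⟩
    | succ i ih =>
      refine ⟨?_, ?_⟩
      · rw [pow_succ', AlgEquiv.mul_apply, ih.1, hr]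
      · rw [pow_succ', AlgEquiv.mul_apply, ih.2, map_mul, hζfix, hk, mul_add, mul_one, pow_add]
        ring
  obtain ⟨t, -, ht⟩ := Nat.exists_mul_mod_eq_one_of_coprime
    ((Nat.Prime.coprime_iff_not_dvd D.hp).2 hkℓ).symm D.hp.one_lt
  have := deg_of_all hI h hs (fun a ha j => by
    have h1 := le_ker_tau D hinv h hle (τ ^ (t * j)) (hit _).1 ha
    rw [RingHom.mem_ker] at h1
    rw [pt_s, ← h1]
    have e : (τ ^ (t * j)) s = (D.base Ω).ζ ^ j * s := by
      rw [(hit _).2]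
      congr 1
      apply (D.base Ω).ζ_pow_of_modEq
      have h2 : k * t ≡ 1 [MOD ℓ] := by
        rw [Nat.ModEq, ht, Nat.mod_eq_of_lt D.hp.one_lt]
      have h3 := h2.mul_right j
      rwa [one_mul, mul_assoc] at h3
    rw [pt_eq, pt_eq, e])
  omega

end

section
variable {ℓ : ℕ} {K : Type} [Field K] {D : Dat ℓ 2 K}
variable {F Ω : Type} [Field F] [Algebra K F] [Field Ω] [Algebra K Ω] [Algebra F Ω]
  [IsScalarTower K F Ω]

lemma Is01.f_eval (h : Is01 D) (L : Type) [Field L] [Algebra K L] (r : L) :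
    (D.base L).f.eval r = algebraMap K L D.δ * (r * (r + 1)) := by
  unfold Dat.f
  rw [Fin.prod_univ_two, eval_mul, eval_mul, eval_C, eval_sub, eval_sub, eval_X, eval_C, eval_C,
    (h.base L).h0, (h.base L).h1, base_δ]
  ring

/-- an invariant ideal of small degree prime to the branch points is admissible -/
theorem adm_of_inv [CharZero F] [IsGalois F Ω] [IsSepClosed Ω] (h : Is01 D)
    {J : Ideal (D.base Ω).A} (hJ : J ≠ ⊥) (hinv : ∀ τ : Ω ≃ₐ[F] Ω, D.mI (rs K τ) J = J)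
    (hdeg : ((D.base Ω).U J).natDegree < ℓ) (he : ∀ i, ((D.base Ω).U J).eval ((D.base Ω).e i) ≠ 0)
    {U₀ : F[X]} (hm : U₀.Monic) (hU : U₀.map (algebraMap F Ω) = (D.base Ω).U J) :
    U₀.natDegree < ℓ ∧ U₀.eval 0 ≠ 0 ∧ U₀.eval (-1) ≠ 0 ∧
    ∀ r : U₀.SplittingField, aeval r U₀ = 0 →
      ∃ s : U₀.SplittingField, s ^ ℓ = algebraMap F U₀.SplittingField (algebraMap K F D.δ) *
        (r * (r + 1)) := by
  have hev : ∀ c : F, ((D.base Ω).U J).eval (algebraMap F Ω c) = algebraMap F Ω (U₀.eval c) := by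
    intro c
    rw [← hU, eval_map_apply]
  have e0 : U₀.eval 0 ≠ 0 := by
    intro h0
    apply he 0
    rw [(h.base Ω).h0, ← map_zero (algebraMap F Ω), hev, h0, map_zero]
  have e1 : U₀.eval (-1) ≠ 0 := by
    intro h0
    apply he 1
    have : (-1 : Ω) = algebraMap F Ω (-1) := by rw [map_neg, map_one]
    rw [(h.base Ω).h1, this, hev, h0, map_zero]
  refine ⟨?_, e0, e1, fun r hr => ?_⟩
  · rw [← hU, natDegree_map] at hdeg
    exact hdeg
  haveI : CharZero Ω := charZero_of_injective_algebraMap (algebraMap F Ω).injective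
  haveI : IsAlgClosed Ω := inferInstance
  let φ : U₀.SplittingField →ₐ[F] Ω :=
    IsAlgClosed.lift
  have hφr' : aeval (φ r) U₀ = 0 := by rw [aeval_algHom_apply, hr, map_zero]
  have hφr : ((D.base Ω).U J).eval (φ r) = 0 := by
    rw [← hU, eval_map_algebraMap, hφr']
  have hf : (D.base Ω).f.eval (φ r) = algebraMap K Ω D.δ * (φ r * (φ r + 1)) := h.f_eval Ω _
  have hr0 : φ r ≠ 0 := by
    intro h0
    apply he 0
    rw [h0] at hφr
    rw [(h.base Ω).h0, hφr]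
  have hr1 : φ r + 1 ≠ 0 := by
    intro h0
    apply he 1
    rw [eq_neg_of_add_eq_zero_left h0] at hφr
    rw [(h.base Ω).h1, hφr]
  have hf0 : (D.base Ω).f.eval (φ r) ≠ 0 := by
    rw [hf]
    exact mul_ne_zero ((_root_.map_ne_zero _).2 D.hδ) (mul_ne_zero hr0 hr1)
  obtain ⟨s0, hs0⟩ := IsAlgClosed.exists_pow_nat_eq ((D.base Ω).f.eval (φ r)) D.pos
  have hs00 : s0 ≠ 0 := by
    rintro rfl
    rw [zero_pow D.pos.ne'] at hs0
    exact hf0 hs0.symm
  obtain ⟨j, hj⟩ := exists_pt hJ hs0 hφr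
  have hs1 := zeta_pow_mul hs0 j
  set s1 := (D.base Ω).ζ ^ j * s0 with hs1def
  have hs10 : s1 ≠ 0 := mul_ne_zero (pow_ne_zero _ (D.base Ω).ζ_ne) hs00
  have hfix := fixed_of_small D hJ hinv hdeg hs1 hs10 hj
  have hmem : s1 ∈ φ.fieldRange := by
    have h1 := InfiniteGalois.fixedField_fixingSubgroup φ.fieldRange
    rw [← h1]
    rintro ⟨τ, hτ⟩
    apply hfix
    have h2 := (IntermediateField.mem_fixingSubgroup_iff _ _).1 hτ
    exact h2 _ ⟨r, rfl⟩
  obtain ⟨s, hs⟩ := hmem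
  have hs' : φ s = s1 := hs
  have key : φ (s ^ ℓ) = φ (algebraMap F U₀.SplittingField (algebraMap K F D.δ) *
      (r * (r + 1))) := by
    rw [map_pow, hs', hs1, hf, map_mul, map_mul, map_add, map_one, AlgHom.commutes,
      ← IsScalarTower.algebraMap_apply]
  exact ⟨s, φ.injective key⟩

end

end Pool.Agent.T3h73.SL
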